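import Pool.Agent.AutDim3.Chain

set_option autoImplicit false

/-!
# The prism operator and its additivity
-/

namespace Pool.Agent.H9DimN

open Pool.Agent.AutDim3

variable {A B B' : Type}

/-- The prism between two maps, on a list. -/
noncomputable def prL (f f' : A → B) : List A → Ch B
  | [] => 0
  | x :: l => cone (f x) (cone (f' x) (sg (l.map f')) - prL f f' l)

/-- The prism between two maps. -/
noncomputable def pr (f f' : A → B) : Ch A →ₗ[ℝ] Ch B := Finsupp.linearCombination ℝ (prL f f')

theorem pr_sg (f f' : A → B) (l : List A) : pr f f' (sg l) = prL f f' l := by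
  simp [pr, sg]

theorem pr_nil (f f' : A → B) : pr f f' (sg []) = 0 := by rw [pr_sg]; rfl

theorem pr_cons (f f' : A → B) (x : A) (l : List A) :
    pr f f' (sg (x :: l)) = cone (f x) (cone (f' x) (push f' (sg l)) - pr f f' (sg l)) := by
  rw [pr_sg, pr_sg, push_sg]; rfl

theorem pr_cone (f f' : A → B) (x : A) (w : Ch A) :
    pr f f' (cone x w) = cone (f x) (cone (f' x) (push f' w) - pr f f' w) := by
  have : pr f f' ∘ₗ cone x = cone (f x) ∘ₗ (cone (f' x) ∘ₗ push f' - pr f f') := by
    apply ext_sg
    intro l
    simp only [LinearMap.comp_apply, LinearMap.sub_apply]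
    rw [cone_sg, pr_cons]
  exact LinearMap.congr_fun this w

theorem pr_htpy_sg (f f' : A → B) (l : List A) :
    bd (pr f f' (sg l)) + pr f f' (bd (sg l)) = push f' (sg l) - push f (sg l) := by
  induction l with
  | nil => rw [pr_nil, bd_nil, map_zero, map_zero, push_sg, push_sg]; simp
  | cons x l ih =>
    have ih' : bd (pr f f' (sg l)) = push f' (sg l) - push f (sg l) - pr f f' (bd (sg l)) := by
      rw [← ih]; abel
    rw [pr_cons, bd_cone, map_sub, bd_cone, ih', bd_cons, map_sub (pr f f'), pr_cone, push_bd,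
      ← cone_sg, push_cone, push_cone]
    simp only [map_sub]
    abel

theorem pr_htpy (f f' : A → B) (w : Ch A) :
    bd (pr f f' w) + pr f f' (bd w) = push f' w - push f w := by
  have : bd ∘ₗ pr f f' + pr f f' ∘ₗ bd = push f' - push f := by
    apply ext_sg
    intro l
    simp only [LinearMap.comp_apply, LinearMap.add_apply, LinearMap.sub_apply]
    exact pr_htpy_sg f f' l
  exact LinearMap.congr_fun this w

theorem push_pr (k : B → B') (f f' : A → B) (w : Ch A) :
    push k (pr f f' w) = pr (k ∘ f) (k ∘ f') w := by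
  have : push k ∘ₗ pr f f' = pr (k ∘ f) (k ∘ f') := by
    apply ext_sg
    intro l
    simp only [LinearMap.comp_apply]
    induction l with
    | nil => rw [pr_nil, pr_nil, map_zero]
    | cons x l ih =>
      rw [pr_cons, pr_cons, push_cone, map_sub, ih, push_cone, push_push]
      rfl
  exact LinearMap.congr_fun this w

theorem pr_push {A' : Type} (h : A' → A) (f f' : A → B) (w : Ch A') :
    pr f f' (push h w) = pr (f ∘ h) (f' ∘ h) w := by
  have : pr f f' ∘ₗ push h = pr (f ∘ h) (f' ∘ h) := by
    apply ext_sg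
    intro l
    simp only [LinearMap.comp_apply]
    induction l with
    | nil => rw [pr_nil, push_sg, List.map_nil, pr_nil]
    | cons x l ih =>
      rw [pr_cons, push_sg, List.map_cons, pr_cons, ← push_sg, ih, push_push]
      rfl
  exact LinearMap.congr_fun this w

theorem pr_mem_deg (f f' : A → B) {n : ℕ} {w : Ch A} (hw : w ∈ Deg (G := A) n) :
    pr f f' w ∈ Deg (G := B) (n + 1) := by
  refine map_mem_of_sg (pr f f') ?_ hw
  intro l hl
  have h : ∀ l : List A, pr f f' (sg l) ∈ Deg (G := B) (l.length + 1) := by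
    intro l
    induction l with
    | nil => rw [pr_nil]; exact Submodule.zero_mem _
    | cons x l ih =>
      rw [pr_cons]
      refine cone_mem_deg _ (Submodule.sub_mem _ (cone_mem_deg _ (push_mem_deg _
        (sg_mem_deg rfl))) ?_)
      exact ih
  have := h l
  rwa [hl] at this

/-- The prism over a triangle of maps, on a list. -/
noncomputable def trL (f f' f'' : A → B) : List A → Ch B
  | [] => 0
  | x :: l => cone (f x) (pr f' f'' (sg (x :: l)) + trL f f' f'' l)

/-- The prism over a triangle of maps. -/
noncomputable def tr (f f' f'' : A → B) : Ch A →ₗ[ℝ] Ch B :=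
  Finsupp.linearCombination ℝ (trL f f' f'')

theorem tr_sg (f f' f'' : A → B) (l : List A) : tr f f' f'' (sg l) = trL f f' f'' l := by
  simp [tr, sg]

theorem tr_nil (f f' f'' : A → B) : tr f f' f'' (sg []) = 0 := by rw [tr_sg]; rfl

theorem tr_cons (f f' f'' : A → B) (x : A) (l : List A) :
    tr f f' f'' (sg (x :: l)) =
      cone (f x) (pr f' f'' (sg (x :: l)) + tr f f' f'' (sg l)) := by
  rw [tr_sg, tr_sg]; rfl

theorem tr_cone (f f' f'' : A → B) (x : A) (w : Ch A) :
    tr f f' f'' (cone x w) = cone (f x) (pr f' f'' (cone x w) + tr f f' f'' w) := by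
  have : tr f f' f'' ∘ₗ cone x = cone (f x) ∘ₗ (pr f' f'' ∘ₗ cone x + tr f f' f'') := by
    apply ext_sg
    intro l
    simp only [LinearMap.comp_apply, LinearMap.add_apply]
    rw [cone_sg, tr_cons]
  exact LinearMap.congr_fun this w

theorem bd_tr_sg (f f' f'' : A → B) (l : List A) :
    bd (tr f f' f'' (sg l)) = pr f f' (sg l) + pr f' f'' (sg l) - pr f f'' (sg l)
      + tr f f' f'' (bd (sg l)) := by
  induction l with
  | nil => rw [tr_nil, pr_nil, pr_nil, pr_nil, bd_nil, map_zero, map_zero]; simp
  | cons x l ih =>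
    have h1 := pr_htpy_sg f' f'' (x :: l)
    have h1' : bd (pr f' f'' (sg (x :: l))) = push f'' (sg (x :: l)) - push f' (sg (x :: l))
        - pr f' f'' (bd (sg (x :: l))) := by rw [← h1]; abel
    have h2 : push f'' (sg (x :: l)) = cone (f'' x) (push f'' (sg l)) := by
      rw [← cone_sg, push_cone]
    have h3 : push f' (sg (x :: l)) = cone (f' x) (push f' (sg l)) := by
      rw [← cone_sg, push_cone]
    rw [tr_cons, bd_cone, map_add, ih, h1', bd_cons, map_sub (tr f f' f''), tr_cone,
      map_sub (pr f' f''), h2, h3, pr_cons f f', pr_cons f f'']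
    simp only [map_sub, map_add]
    abel

theorem bd_tr (f f' f'' : A → B) (w : Ch A) :
    bd (tr f f' f'' w) = pr f f' w + pr f' f'' w - pr f f'' w + tr f f' f'' (bd w) := by
  have : bd ∘ₗ tr f f' f'' = pr f f' + pr f' f'' - pr f f'' + tr f f' f'' ∘ₗ bd := by
    apply ext_sg
    intro l
    simp only [LinearMap.comp_apply, LinearMap.add_apply, LinearMap.sub_apply]
    exact bd_tr_sg f f' f'' l
  exact LinearMap.congr_fun this w

theorem push_tr (k : B → B') (f f' f'' : A → B) (w : Ch A) :
    push k (tr f f' f'' w) = tr (k ∘ f) (k ∘ f') (k ∘ f'') w := by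
  have : push k ∘ₗ tr f f' f'' = tr (k ∘ f) (k ∘ f') (k ∘ f'') := by
    apply ext_sg
    intro l
    simp only [LinearMap.comp_apply]
    induction l with
    | nil => rw [tr_nil, tr_nil, map_zero]
    | cons x l ih =>
      rw [tr_cons, tr_cons, push_cone, map_add, ih, push_pr]
      rfl
  exact LinearMap.congr_fun this w

theorem tr_push {A' : Type} (h : A' → A) (f f' f'' : A → B) (w : Ch A') :
    tr f f' f'' (push h w) = tr (f ∘ h) (f' ∘ h) (f'' ∘ h) w := by
  have : tr f f' f'' ∘ₗ push h = tr (f ∘ h) (f' ∘ h) (f'' ∘ h) := by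
    apply ext_sg
    intro l
    simp only [LinearMap.comp_apply]
    induction l with
    | nil => rw [tr_nil, push_sg, List.map_nil, tr_nil]
    | cons x l ih =>
      have h1 := pr_push h f' f'' (sg (x :: l))
      rw [push_sg, List.map_cons] at h1
      rw [tr_cons, push_sg, List.map_cons, tr_cons, h1, ← push_sg, ih]
      rfl
  exact LinearMap.congr_fun this w

theorem tr_mem_deg (f f' f'' : A → B) {n : ℕ} {w : Ch A} (hw : w ∈ Deg (G := A) n) :
    tr f f' f'' w ∈ Deg (G := B) (n + 2) := by
  refine map_mem_of_sg (tr f f' f'') ?_ hw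
  intro l hl
  have h : ∀ l : List A, tr f f' f'' (sg l) ∈ Deg (G := B) (l.length + 2) := by
    intro l
    induction l with
    | nil => rw [tr_nil]; exact Submodule.zero_mem _
    | cons x l ih =>
      rw [tr_cons]
      refine cone_mem_deg _ (Submodule.add_mem _ ?_ ?_)
      · have := pr_mem_deg f' f'' (n := (x :: l).length) (sg_mem_deg (G := A) (l := x :: l) rfl)
        simpa using this
      · exact ih
  have := h l
  rwa [hl] at this

end Pool.Agent.H9DimN
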