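import Pool.Agent.AutDim3.Vol
import Pool.Agent.H9DimN.Prism

set_option autoImplicit false
set_option linter.unusedSectionVars false

/-!
# Groups with a fundamental chain and dilations
-/

namespace Pool.Agent.H9DimN

open Pool.Agent.AutDim3

/-- A fundamental chain of dimension `d`, a volume cocycle, and dilations of degree `t ^ (d + 1)` whose
growth is linear in every group containing `N`. -/
structure Fund (N : Type) [Group N] (d : ℕ) where
  z : Ch N
  nu : Ch N →ₗ[ℝ] ℝ
  dil : ℕ → N →* N
  mem : z ∈ Deg (G := N) (d + 1)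
  cyc : ∀ E : Ch N →ₗ[ℝ] ℝ, InvUnder (MonoidHom.id N) E → E (bd z) = 0
  nu_inv : InvUnder (MonoidHom.id N) nu
  nu_closed : Closed (d + 1) nu
  nu_z : nu z = 1
  scale : ∀ F : Ch N →ₗ[ℝ] ℝ, InvUnder (MonoidHom.id N) F → Closed (d + 1) F → ∀ t : ℕ,
    F (push (dil t) z) = (t : ℝ) ^ (d + 1) * F z
  lin : ∀ (n : N) (G : Type) [Group G] (C : Comb G) (φ : N →* G), ∃ D : ℕ, ∀ t : ℕ,
    C.len (φ (dil t n)) ≤ D * t

section Prod

variable {N : Type} [Group N] {d : ℕ}

/-- The first inclusion. -/
def inN (n : N) : N × Multiplicative ℤ := (n, 1)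

/-- The generator of the second factor. -/
def gen (N : Type) [Group N] : N × Multiplicative ℤ := (1, Multiplicative.ofAdd 1)

theorem inN_mul (n : N) (x : N) : inN (n * x) = inN n * inN x := by
  ext <;> simp [inN]

theorem gen_pow (t : ℕ) : (gen N) ^ t = (1, Multiplicative.ofAdd (t : ℤ)) := by
  ext
  · simp [gen]
  · simp [gen, ← ofAdd_nsmul]

theorem gen_comm (x : N × Multiplicative ℤ) (t : ℕ) : (gen N) ^ t * x = x * (gen N) ^ t := by
  rw [gen_pow]
  ext
  · simp
  · simp [mul_comm]

/-- The coordinate. -/
def co (x : N × Multiplicative ℤ) : ℝ := ((Multiplicative.toAdd x.2 : ℤ) : ℝ)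

theorem co_mul (g x : N × Multiplicative ℤ) : co (g * x) = co g + co x := by
  simp [co]

theorem co_inN (x : N) : co (inN x) = 0 := by simp [co, inN]

theorem co_gen (x : N) : co (gen N * inN x) = 1 := by simp [co, inN, gen]

/-- Auxiliary functional. -/
noncomputable def auxL (ν : Ch N →ₗ[ℝ] ℝ) : List (N × Multiplicative ℤ) → ℝ
  | [] => 0
  | y :: l => co y * ν (sg ((y :: l).map Prod.fst))

noncomputable def aux (ν : Ch N →ₗ[ℝ] ℝ) : Ch (N × Multiplicative ℤ) →ₗ[ℝ] ℝ :=
  Finsupp.linearCombination ℝ (auxL ν)

theorem aux_cons (ν : Ch N →ₗ[ℝ] ℝ) (y : N × Multiplicative ℤ)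
    (l : List (N × Multiplicative ℤ)) :
    aux ν (sg (y :: l)) = co y * ν (sg ((y :: l).map Prod.fst)) := by
  simp [aux, auxL, sg]

theorem aux_cone (ν : Ch N →ₗ[ℝ] ℝ) (y : N × Multiplicative ℤ)
    (w : Ch (N × Multiplicative ℤ)) :
    aux ν (cone y w) = co y * ν (push Prod.fst (cone y w)) := by
  have : aux ν ∘ₗ cone y = co y • (ν ∘ₗ push Prod.fst ∘ₗ cone y) := by
    apply ext_sg
    intro l
    simp only [LinearMap.comp_apply, LinearMap.smul_apply, smul_eq_mul]
    rw [cone_sg, aux_cons, push_sg]
  exact LinearMap.congr_fun this w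

/-- The cup product with the coordinate. -/
noncomputable def cupL (ν : Ch N →ₗ[ℝ] ℝ) : List (N × Multiplicative ℤ) → ℝ
  | [] => 0
  | [_] => 0
  | x :: y :: l => (co y - co x) * ν (sg ((y :: l).map Prod.fst))

noncomputable def cup (ν : Ch N →ₗ[ℝ] ℝ) : Ch (N × Multiplicative ℤ) →ₗ[ℝ] ℝ :=
  Finsupp.linearCombination ℝ (cupL ν)

theorem cup_cons_cons (ν : Ch N →ₗ[ℝ] ℝ) (x y : N × Multiplicative ℤ)
    (l : List (N × Multiplicative ℤ)) :
    cup ν (sg (x :: y :: l)) = (co y - co x) * ν (sg ((y :: l).map Prod.fst)) := by
  simp [cup, cupL, sg]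

theorem cup_cone (ν : Ch N →ₗ[ℝ] ℝ) (x : N × Multiplicative ℤ) {k : ℕ}
    {w : Ch (N × Multiplicative ℤ)} (hw : w ∈ Deg (G := N × Multiplicative ℤ) (k + 1)) :
    cup ν (cone x w) = aux ν w - co x * ν (push Prod.fst w) := by
  have := eq_of_sg (cup ν ∘ₗ cone x) (aux ν - co x • (ν ∘ₗ push Prod.fst)) (fun l hl => by
    match l, hl with
    | y :: l, _ =>
      simp only [LinearMap.comp_apply, LinearMap.sub_apply, LinearMap.smul_apply, smul_eq_mul]
      rw [cone_sg, cup_cons_cons, aux_cons, push_sg, sub_mul]) hw
  simpa using this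

theorem cup_inv (ν : Ch N →ₗ[ℝ] ℝ) (h : InvUnder (MonoidHom.id N) ν) :
    InvUnder (MonoidHom.id (N × Multiplicative ℤ)) (cup ν) := by
  intro g l
  match l with
  | [] => rfl
  | [x] => simp [cup, cupL, sg]
  | x :: y :: l =>
    simp only [List.map_cons, MonoidHom.id_apply]
    rw [cup_cons_cons, cup_cons_cons, co_mul, co_mul]
    have h1 := h g.1 ((y :: l).map Prod.fst)
    have h2 : (g * y :: l.map (g * ·)).map Prod.fst =
        ((y :: l).map Prod.fst).map (MonoidHom.id N g.1 * ·) := by
      simp [List.map_map, Function.comp_def]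
    rw [h2, h1]
    ring

theorem cup_closed (ν : Ch N →ₗ[ℝ] ℝ) (h : Closed (d + 1) ν) : Closed (d + 2) (cup ν) := by
  intro l hl
  match l, hl with
  | x :: y :: y' :: m', hl =>
    set m := y' :: m' with hm
    have hlen : m.length = d + 1 := by
      rw [List.length_cons, List.length_cons] at hl
      omega
    have hlen2 : (y :: m).length = d + 1 + 1 := by rw [List.length_cons, hlen]
    have hν : ν (push Prod.fst (bd (sg (y :: m)))) = 0 := by
      rw [push_bd, push_sg]
      exact h _ (by rw [List.length_map, hlen2])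
    have e1 : cup ν (sg (y :: m)) = aux ν (sg m) - co y * ν (push Prod.fst (sg m)) := by
      rw [← cone_sg]
      exact cup_cone ν y (k := d) (sg_mem_deg hlen)
    have e2 : cup ν (cone x (bd (sg (y :: m)))) =
        aux ν (bd (sg (y :: m))) - co x * ν (push Prod.fst (bd (sg (y :: m)))) :=
      cup_cone ν x (k := d) (bd_sg_mem_deg hlen2)
    have e3 : aux ν (bd (sg (y :: m))) = aux ν (sg m) - co y * ν (push Prod.fst (sg m)) := by
      have e4 : ν (push Prod.fst (cone y (bd (sg m)))) = ν (push Prod.fst (sg m)) := by
        have e5 : cone y (bd (sg m)) = sg m - bd (sg (y :: m)) := by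
          rw [bd_cons y m]; abel
        rw [e5, map_sub, map_sub, hν, sub_zero]
      rw [bd_cons y m, map_sub, aux_cone, e4]
    rw [bd_cons, map_sub, e1, e2, e3, hν]
    ring

theorem cup_pr (ν : Ch N →ₗ[ℝ] ℝ) {k : ℕ} {w : Ch N} (hw : w ∈ Deg (G := N) (k + 1)) :
    cup ν (pr inN (fun x => gen N * inN x) w) = ν w := by
  have := eq_of_sg (cup ν ∘ₗ pr inN (fun x => gen N * inN x)) ν (fun l hl => by
    match l, hl with
    | x :: l, hl =>
      have hl' : l.length = k := by simpa using hl
      rw [LinearMap.comp_apply, pr_cons]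
      have hmem : cone (gen N * inN x) (push (fun x => gen N * inN x) (sg l)) -
          pr inN (fun x => gen N * inN x) (sg l) ∈ Deg (G := N × Multiplicative ℤ) (k + 1) := by
        refine Submodule.sub_mem _ (cone_mem_deg _ (push_mem_deg _ (sg_mem_deg hl')))
          (pr_mem_deg _ _ (sg_mem_deg hl'))
      rw [cup_cone ν _ hmem, co_inN, zero_mul, sub_zero, map_sub]
      have e1 : aux ν (pr inN (fun x => gen N * inN x) (sg l)) = 0 := by
        match l with
        | [] => rw [pr_nil, map_zero]
        | y :: l => rw [pr_cons, aux_cone, co_inN, zero_mul]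
      rw [e1, sub_zero, push_sg, cone_sg, aux_cons, co_gen, one_mul]
      congr 2
      rw [List.map_cons, List.map_map]
      have e2 : Prod.fst ∘ (fun x : N => gen N * inN x) = id := by
        ext y; simp [gen, inN]
      rw [e2, List.map_id]
      congr 1
      simp [gen, inN]) hw
  simpa using this

/-- The dilations of the product. -/
def dilP (dil : ℕ → N →* N) (t : ℕ) : N × Multiplicative ℤ →* N × Multiplicative ℤ where
  toFun x := (dil t x.1, x.2 ^ t)
  map_one' := by ext <;> simp
  map_mul' x y := by ext <;> simp [mul_pow]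

/-- Additivity of the prism on cycles. -/
theorem pr_add (F : Ch (N × Multiplicative ℤ) →ₗ[ℝ] ℝ)
    (hF : InvUnder (MonoidHom.id (N × Multiplicative ℤ)) F) (hc : Closed (d + 2) F) {w : Ch N}
    (hw : w ∈ Deg (G := N) (d + 1))
    (hw0 : ∀ E : Ch N →ₗ[ℝ] ℝ, InvUnder (MonoidHom.id N) E → E (bd w) = 0)
    (a b c : N × Multiplicative ℤ) (ha : ∀ x, a * x = x * a) (hb : ∀ x, b * x = x * b)
    (hc' : ∀ x, c * x = x * c) :
    F (pr (fun x => a * inN x) (fun x => c * inN x) w) =
      F (pr (fun x => a * inN x) (fun x => b * inN x) w) +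
      F (pr (fun x => b * inN x) (fun x => c * inN x) w) := by
  have h1 := congrArg F (bd_tr (fun x => a * inN x) (fun x => b * inN x) (fun x => c * inN x) w)
  rw [hc.apply (tr_mem_deg _ _ _ hw), map_add, map_sub, map_add] at h1
  have h2 := hw0 (F ∘ₗ tr (fun x => a * inN x) (fun x => b * inN x) (fun x => c * inN x)) (by
    intro n l
    have e1 : ∀ e : N × Multiplicative ℤ, (∀ x, e * x = x * e) →
        (fun x => e * inN x) ∘ (fun x : N => n * x) =
        (fun y : N × Multiplicative ℤ => inN n * y) ∘ (fun x => e * inN x) := by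
      intro e he
      funext x
      simp only [Function.comp_apply]
      rw [inN_mul, ← mul_assoc, he (inN n), mul_assoc]
    have e2 := tr_push (fun x : N => n * x) (fun x => a * inN x) (fun x => b * inN x)
      (fun x => c * inN x) (sg l)
    rw [push_sg, e1 a ha, e1 b hb, e1 c hc', ← push_tr] at e2
    simp only [LinearMap.comp_apply, MonoidHom.id_apply]
    rw [e2]
    exact hF.apply (inN n) _)
  rw [LinearMap.comp_apply] at h2
  rw [h2] at h1
  linarith

/-- The product with an infinite cyclic group. -/
noncomputable def Fund.prod (fd : Fund N d) : Fund (N × Multiplicative ℤ) (d + 1) where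
  z := pr inN (fun x => gen N * inN x) fd.z
  nu := cup fd.nu
  dil := dilP fd.dil
  mem := pr_mem_deg _ _ fd.mem
  cyc := by
    intro E hE
    have h1 := congrArg E (pr_htpy inN (fun x => gen N * inN x) fd.z)
    rw [map_add, map_sub] at h1
    have h2 : E (push (fun x => gen N * inN x) fd.z) = E (push inN fd.z) := by
      have := hE.apply (gen N) (push inN fd.z)
      rw [push_push] at this
      exact this
    have h3 := fd.cyc (E ∘ₗ pr inN (fun x => gen N * inN x)) (by
      intro n l
      have e2 := pr_push (fun x : N => n * x) inN (fun x => gen N * inN x) (sg l)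
      have e3 : inN ∘ (fun x : N => n * x) =
          (fun y : N × Multiplicative ℤ => inN n * y) ∘ inN := by
        funext x
        simp only [Function.comp_apply]
        rw [inN_mul]
      have e4 : (fun x => gen N * inN x) ∘ (fun x : N => n * x) =
          (fun y : N × Multiplicative ℤ => inN n * y) ∘ (fun x => gen N * inN x) := by
        funext x
        simp only [Function.comp_apply]
        have := gen_comm (inN n) 1
        rw [pow_one] at this
        rw [inN_mul, ← mul_assoc, this, mul_assoc]
      rw [push_sg, e3, e4, ← push_pr] at e2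
      simp only [LinearMap.comp_apply, MonoidHom.id_apply]
      rw [e2]
      exact hE.apply (inN n) _)
    rw [LinearMap.comp_apply] at h3
    rw [h2, h3] at h1
    linarith
  nu_inv := cup_inv _ fd.nu_inv
  nu_closed := cup_closed _ fd.nu_closed
  nu_z := by rw [cup_pr _ fd.mem, fd.nu_z]
  scale := by
    intro F hF hc t
    have hcent : ∀ s : ℕ, ∀ x, (gen N) ^ s * x = x * (gen N) ^ s := fun s x => gen_comm x s
    -- the slant functional
    set F' : Ch N →ₗ[ℝ] ℝ := F ∘ₗ pr inN (fun x => gen N * inN x) with hF'
    have hF'i : InvUnder (MonoidHom.id N) F' := by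
      intro n l
      have e2 := pr_push (fun x : N => n * x) inN (fun x => gen N * inN x) (sg l)
      have e3 : inN ∘ (fun x : N => n * x) =
          (fun y : N × Multiplicative ℤ => inN n * y) ∘ inN := by
        funext x
        simp only [Function.comp_apply]
        rw [inN_mul]
      have e4 : (fun x => gen N * inN x) ∘ (fun x : N => n * x) =
          (fun y : N × Multiplicative ℤ => inN n * y) ∘ (fun x => gen N * inN x) := by
        funext x
        simp only [Function.comp_apply]
        have := gen_comm (inN n) 1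
        rw [pow_one] at this
        rw [inN_mul, ← mul_assoc, this, mul_assoc]
      rw [push_sg, e3, e4, ← push_pr] at e2
      simp only [hF', LinearMap.comp_apply, MonoidHom.id_apply]
      rw [e2]
      exact hF.apply (inN n) _
    have hF'c : Closed (d + 1) F' := by
      intro l hl
      have h1 := congrArg F (pr_htpy inN (fun x => gen N * inN x) (sg l))
      rw [map_add, map_sub] at h1
      have h2 : F (push (fun x => gen N * inN x) (sg l)) = F (push inN (sg l)) := by
        have := hF.apply (gen N) (push inN (sg l))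
        rw [push_push] at this
        exact this
      rw [hc.apply (pr_mem_deg _ _ (sg_mem_deg hl)), h2] at h1
      simp only [hF', LinearMap.comp_apply]
      linarith
    set w := push (fd.dil t) fd.z with hw
    have hwd : w ∈ Deg (G := N) (d + 1) := push_mem_deg _ fd.mem
    have hw0 : ∀ E : Ch N →ₗ[ℝ] ℝ, InvUnder (MonoidHom.id N) E → E (bd w) = 0 := by
      intro E hE
      have := fd.cyc (E ∘ₗ push (fd.dil t)) (by
        intro n l
        simp only [LinearMap.comp_apply, push_sg, MonoidHom.id_apply, List.map_map]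
        have := hE (fd.dil t n) (l.map (fd.dil t))
        rw [List.map_map] at this
        rw [← this]
        congr 2
        apply List.map_congr_left
        intro x _
        simp)
      rw [LinearMap.comp_apply, push_bd] at this
      exact this
    -- the dilated prism
    have e5 : push (dilP fd.dil t) (pr inN (fun x => gen N * inN x) fd.z) =
        pr (fun x => (gen N) ^ 0 * inN x) (fun x => (gen N) ^ t * inN x) w := by
      rw [push_pr, hw, pr_push]
      congr 2
      · funext x
        ext <;> simp [dilP, inN]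
      · funext x
        simp only [Function.comp_apply, gen_pow]
        ext
        · simp [dilP, inN, gen]
        · simp [dilP, inN, gen, ← ofAdd_nsmul]
    have e6 : ∀ s : ℕ, F (pr (fun x => (gen N) ^ 0 * inN x) (fun x => (gen N) ^ s * inN x) w) =
        s * F' w := by
      intro s
      induction s with
      | zero =>
        have := pr_add F hF hc hwd hw0 ((gen N) ^ 0) ((gen N) ^ 0) ((gen N) ^ 0)
          (hcent 0) (hcent 0) (hcent 0)
        rw [Nat.cast_zero, zero_mul]
        linarith
      | succ s ih =>
        have := pr_add F hF hc hwd hw0 ((gen N) ^ 0) ((gen N) ^ s) ((gen N) ^ (s + 1))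
          (hcent 0) (hcent s) (hcent (s + 1))
        rw [this, ih]
        have e7 : pr (fun x => (gen N) ^ s * inN x) (fun x => (gen N) ^ (s + 1) * inN x) w =
            push ((gen N) ^ s * ·) (pr inN (fun x => gen N * inN x) w) := by
          rw [push_pr]
          congr 2
          funext x
          simp only [Function.comp_apply]
          rw [pow_succ, mul_assoc]
        have e8 := hF.apply ((gen N) ^ s) (pr inN (fun x => gen N * inN x) w)
        simp only [MonoidHom.id_apply] at e8
        rw [e7, e8]
        simp only [hF', LinearMap.comp_apply]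
        push_cast
        ring
    have e9 := fd.scale F' hF'i hF'c t
    rw [e5, e6, e9]
    simp only [hF', LinearMap.comp_apply]
    ring
  lin := by
    intro n G _ C φ
    obtain ⟨D, hD⟩ := fd.lin n.1 G C (φ.comp (MonoidHom.inl N (Multiplicative ℤ)))
    refine ⟨D + C.len (φ (1, n.2)), fun t => ?_⟩
    have h1 : dilP fd.dil t n = (fd.dil t n.1, 1) * (1, n.2) ^ t := by
      ext
      · simp [dilP]
      · simp [dilP]
    rw [h1, map_mul, map_pow]
    refine (C.len_mul _ _).trans ?_
    have h2 := hD t
    have h3 := len_pow_le C (φ (1, n.2)) t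
    simp only [MonoidHom.comp_apply, MonoidHom.inl_apply] at h2
    rw [add_mul, mul_comm (C.len _) t]
    omega

end Prod

end Pool.Agent.H9DimN
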