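import Pool.Agent.AutDim3.Eff
import Pool.Agent.H9DimN.Fund

set_option autoImplicit false

/-!
# Invariant cocycles which are bounded on small simplices vanish on fundamental chains
-/

namespace Pool.Agent.H9DimN

open Pool.Agent.AutDim3

/-- The stages. -/
noncomputable def stage {G : Type} [Group G] (C : Comb G) : (k : ℕ) → Stage C k
  | 0 => Stage.zero C
  | k + 1 => (stage C k).next

/-- Efficient filling in every dimension. -/
theorem exists_eff {G : Type} [Group G] (C : Comb G) (k : ℕ) :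
    ∃ (S H₄ H₃ : Ch G →ₗ[ℝ] Ch G) (R A : ℕ),
      (∀ (g : G) (l : List G), H₃ (sg (l.map (g * ·))) = push (g * ·) (H₃ (sg l))) ∧
      (∀ l : List G, l.length = k + 2 → H₄ (sg l) ∈ Deg (G := G) (k + 3) ∧
        S (sg l) - sg l = bd (H₄ (sg l)) + H₃ (bd (sg l))) ∧
      (∀ l : List G, l.length = k + 2 → ∀ m ∈ (S (sg l)).support,
        m.length = k + 2 ∧ C.Small R m) ∧
      (∀ (l : List G) (d : ℕ), l.length = k + 2 → C.Small d l →
        nrm (S (sg l)) ≤ A * (1 + d) ^ (k + 1)) := by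
  set st := stage C k with hst
  refine ⟨st.nextS, st.nextH, st.H, st.next.R, st.next.B, st.equivH, ?_, ?_, ?_⟩
  · intro l hl
    exact ⟨st.next.degH l hl, st.nextH_htpy_sg l hl⟩
  · intro l hl m hm
    have h1 := st.next.supp l (C.dm l) hl (C.small_dm l)
    rw [Finsupp.mem_supported] at h1
    have h2 := h1 hm
    exact ⟨h2.1, h2.2.1⟩
  · intro l d hl hs
    exact st.next.norm l d hl hs

/-- The lists of the dilated fundamental chain have linear diameter. -/
theorem small_dil {N G : Type} [Group N] [Group G] {d : ℕ} (fd : Fund N d) (C : Comb G)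
    (φ : N →* G) : ∃ D : ℕ, ∀ t : ℕ, ∀ l ∈ fd.z.support,
      C.Small (D * t) (l.map fun n => φ (fd.dil t n)) := by
  classical
  choose D hD using fun n => fd.lin n G C φ
  set V : Finset N := fd.z.support.biUnion (fun l => l.toFinset) with hV
  refine ⟨(V ×ˢ V).sup fun pq => D (pq.1⁻¹ * pq.2), ?_⟩
  intro t l hl
  intro p hp q hq
  rw [List.mem_map] at hp hq
  obtain ⟨p', hp', rfl⟩ := hp
  obtain ⟨q', hq', rfl⟩ := hq
  have h1 : (φ (fd.dil t p'))⁻¹ * φ (fd.dil t q') = φ (fd.dil t (p'⁻¹ * q')) := by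
    simp
  rw [h1]
  refine (hD _ t).trans (Nat.mul_le_mul_right _ ?_)
  have hmem : ∀ r ∈ l, r ∈ V := by
    intro r hr
    rw [hV, Finset.mem_biUnion]
    exact ⟨l, hl, List.mem_toFinset.mpr hr⟩
  have : (p', q') ∈ V ×ˢ V := by
    rw [Finset.mem_product]
    exact ⟨hmem p' hp', hmem q' hq'⟩
  exact Finset.le_sup (f := fun pq : N × N => D (pq.1⁻¹ * pq.2)) this

/-- The key estimate. -/
theorem vanish {N G : Type} [Group N] [Group G] {k : ℕ} (fd : Fund N (k + 1)) (C : Comb G)
    (φ : N →* G) (F : Ch G →ₗ[ℝ] ℝ) (hi : InvUnder φ F) (hc : Closed (k + 2) F)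
    (hb : ∀ R : ℕ, ∃ M : ℝ, ∀ l : List G, l.length = k + 2 → C.Small R l → |F (sg l)| ≤ M) :
    F (push φ fd.z) = 0 := by
  obtain ⟨S, H₄, H₃, R, A, hH₃, hH₄, hS, hn⟩ := exists_eff C k
  obtain ⟨M, hM⟩ := hb R
  obtain ⟨D, hD⟩ := small_dil fd C φ
  have hM0 : 0 ≤ |M| := abs_nonneg M
  set W : ℝ := nrm fd.z with hW
  have hW0 : 0 ≤ W := nrm_nonneg _
  set F₁ : Ch N →ₗ[ℝ] ℝ := F ∘ₗ push φ with hF₁
  have hF₁i : InvUnder (MonoidHom.id N) F₁ := by
    intro n l
    simp only [hF₁, LinearMap.comp_apply, push_sg, MonoidHom.id_apply, List.map_map]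
    have := hi n (l.map φ)
    rw [List.map_map] at this
    rw [← this]
    congr 2
    apply List.map_congr_left
    intro x _
    simp
  have hF₁c : Closed (k + 2) F₁ := by
    intro l hl
    simp only [hF₁, LinearMap.comp_apply]
    rw [push_bd, push_sg]
    exact hc _ (by simpa using hl)
  have h3 : ∀ t : ℕ, F₁ (push (fd.dil t) fd.z) = (t : ℝ) ^ (k + 2) * F₁ fd.z := by
    intro t
    exact fd.scale F₁ hF₁i hF₁c t
  -- the upper bound
  have h4 : ∀ t : ℕ, |F₁ (push (fd.dil t) fd.z)| ≤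
      |M| * (A * (1 + (D * t : ℕ)) ^ (k + 1) * W) := by
    intro t
    set w : Ch G := push (fun n => φ (fd.dil t n)) fd.z with hw
    have hww : push φ (push (fd.dil t) fd.z) = w := by
      rw [push_push]; rfl
    have hwd : w ∈ Deg (G := G) (k + 2) := push_mem_deg _ fd.mem
    have hwt : w ∈ Finsupp.supported ℝ ℝ
        {l : List G | l.length = k + 2 ∧ C.Small (D * t) l} := by
      have hz : fd.z ∈ Finsupp.supported ℝ ℝ
          {l : List N | l.length = k + 2 ∧ l ∈ fd.z.support} := by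
        have h := fd.mem
        unfold Deg at h
        rw [Finsupp.mem_supported] at h ⊢
        exact fun l hl => ⟨h hl, hl⟩
      refine map_mem_of_sg (push (fun n => φ (fd.dil t n))) ?_ hz
      rintro l ⟨hl1, hl2⟩
      rw [push_sg]
      exact sg_mem_supported ⟨by simpa using hl1, hD t l hl2⟩
    -- F w = F (S w)
    have hSw : F w = F (S w) := by
      have e1 : (S - (LinearMap.id : Ch G →ₗ[ℝ] Ch G)) w = (bd ∘ₗ H₄ + H₃ ∘ₗ bd) w := by
        refine eq_of_sg _ _ (fun l hl => ?_) hwd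
        simp only [LinearMap.sub_apply, LinearMap.id_apply, LinearMap.add_apply,
          LinearMap.comp_apply]
        exact (hH₄ l hl).2
      have e2 : H₄ w ∈ Deg (G := G) (k + 3) := map_mem_of_sg H₄ (fun l hl => (hH₄ l hl).1) hwd
      simp only [LinearMap.sub_apply, LinearMap.id_apply, LinearMap.add_apply,
          LinearMap.comp_apply] at e1
      have e3 : F (S w) - F w = F (bd (H₄ w)) + F (H₃ (bd w)) := by
        rw [← map_sub, e1, map_add]
      rw [hc.apply e2] at e3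
      have e4 : InvUnder (MonoidHom.id N) (F ∘ₗ H₃ ∘ₗ push (fun n => φ (fd.dil t n))) := by
        intro n l
        simp only [LinearMap.comp_apply, push_sg, MonoidHom.id_apply, List.map_map]
        have e5 : (l.map (fun n => φ (fd.dil t n))).map (φ (fd.dil t n) * ·) =
            l.map ((fun n => φ (fd.dil t n)) ∘ fun x => n * x) := by
          rw [List.map_map]
          apply List.map_congr_left
          intro x _
          simp
        rw [← e5, hH₃, hi.apply (fd.dil t n)]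
      have e6 := fd.cyc _ e4
      simp only [LinearMap.comp_apply] at e6
      rw [push_bd] at e6
      rw [e6] at e3
      linarith
    have e7 : F₁ (push (fd.dil t) fd.z) = F (S w) := by
      rw [← hSw, ← hww]; rfl
    rw [e7]
    have e8 : |F (S w)| ≤ |M| * nrm (S w) := by
      refine abs_le_nrm F (S w) ?_
      intro m hm
      have : S w ∈ Finsupp.supported ℝ ℝ {m : List G | m.length = k + 2 ∧ C.Small R m} := by
        refine map_mem_of_sg S ?_ hwd
        intro l hl
        rw [Finsupp.mem_supported]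
        intro m hm
        exact hS l hl m hm
      rw [Finsupp.mem_supported] at this
      have hm' := this hm
      exact (hM m hm'.1 hm'.2).trans (le_abs_self M)
    have e9 : nrm (S w) ≤ A * (1 + (D * t : ℕ)) ^ (k + 1) * W := by
      have e10 : nrm (S w) ≤ (A * (1 + (D * t : ℕ)) ^ (k + 1) : ℝ) * nrm w := by
        refine nrm_map_le S w ?_
        intro l hl
        rw [Finsupp.mem_supported] at hwt
        have hl' := hwt hl
        exact hn l (D * t) hl'.1 hl'.2
      refine e10.trans ?_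
      refine mul_le_mul_of_nonneg_left ?_ (by positivity)
      exact nrm_push_le _ _
    exact e8.trans (mul_le_mul_of_nonneg_left e9 hM0)
  -- conclusion
  by_contra hne
  have hpos : 0 < |F₁ fd.z| := abs_pos.mpr hne
  set Q : ℝ := |M| * A * W * (1 + D) ^ (k + 1) with hQ
  have hQ0 : 0 ≤ Q := by positivity
  have h5 : ∀ t : ℕ, (t : ℝ) ^ (k + 2) * |F₁ fd.z| ≤ Q * (1 + t) ^ (k + 1) := by
    intro t
    have e1 := h4 t
    rw [h3 t, abs_mul, abs_of_nonneg (by positivity : (0 : ℝ) ≤ (t : ℝ) ^ (k + 2))] at e1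
    refine e1.trans ?_
    have e2 : (1 + ((D * t : ℕ) : ℝ)) ≤ (1 + D) * (1 + t) := by
      push_cast
      nlinarith [Nat.cast_nonneg (α := ℝ) D, Nat.cast_nonneg (α := ℝ) t]
    have e3 : (1 + ((D * t : ℕ) : ℝ)) ^ (k + 1) ≤ ((1 + D) * (1 + t)) ^ (k + 1) :=
      pow_le_pow_left₀ (by positivity) e2 (k + 1)
    have e4 : (0 : ℝ) ≤ |M| * A * W := by positivity
    calc |M| * (A * (1 + ((D * t : ℕ) : ℝ)) ^ (k + 1) * W)
        = |M| * A * W * (1 + ((D * t : ℕ) : ℝ)) ^ (k + 1) := by ring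
      _ ≤ |M| * A * W * ((1 + D) * (1 + t)) ^ (k + 1) := mul_le_mul_of_nonneg_left e3 e4
      _ = _ := by rw [hQ, mul_pow]; ring
  obtain ⟨t, ht⟩ := exists_nat_gt (2 ^ (k + 1) * Q / |F₁ fd.z|)
  have ht' : 2 ^ (k + 1) * Q < t * |F₁ fd.z| := by
    rwa [div_lt_iff₀ hpos] at ht
  have ht0 : 1 ≤ t := by
    rcases Nat.eq_zero_or_pos t with h | h
    · rw [h] at ht'
      simp only [Nat.cast_zero, zero_mul] at ht'
      have : 0 ≤ 2 ^ (k + 1) * Q := by positivity
      linarith
    · exact h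
  have h6 := h5 t
  have ht1 : (1 : ℝ) ≤ t := by exact_mod_cast ht0
  have h7 : (1 + (t : ℝ)) ^ (k + 1) ≤ 2 ^ (k + 1) * (t : ℝ) ^ (k + 1) := by
    have : (1 + (t : ℝ)) ≤ 2 * t := by linarith
    calc (1 + (t : ℝ)) ^ (k + 1) ≤ (2 * t) ^ (k + 1) := pow_le_pow_left₀ (by positivity) this _
      _ = 2 ^ (k + 1) * (t : ℝ) ^ (k + 1) := by rw [mul_pow]
  have h8 : (t : ℝ) ^ (k + 2) * |F₁ fd.z| ≤ Q * (2 ^ (k + 1) * (t : ℝ) ^ (k + 1)) :=
    h6.trans (mul_le_mul_of_nonneg_left h7 hQ0)
  have h10 : 0 < (t : ℝ) ^ (k + 1) := by positivity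
  have h11 : (t : ℝ) ^ (k + 2) * |F₁ fd.z| = (t : ℝ) ^ (k + 1) * (t * |F₁ fd.z|) := by ring
  have h12 : Q * (2 ^ (k + 1) * (t : ℝ) ^ (k + 1)) = (t : ℝ) ^ (k + 1) * (2 ^ (k + 1) * Q) := by
    ring
  rw [h11, h12] at h8
  have h13 := le_of_mul_le_mul_left h8 h10
  linarith

end Pool.Agent.H9DimN
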