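import Mathlib

set_option autoImplicit false

/-!
# Subgroups commuting with a large free abelian group
-/

namespace Pool.Agent.H9DimN

/-- Either `m = 0` (then there is no condition on `H`), or a free abelian subgroup of rank `m + 1` of
`G` commutes with `H`. -/
def Wide {G : Type} [Group G] (m : ℕ) (H : Subgroup G) : Prop :=
  m = 0 ∨ ∃ ψ : (Fin (m + 1) → Multiplicative ℤ) →* G, Function.Injective ψ ∧
    ∀ v, ∀ h ∈ H, ψ v * h = h * ψ v

end Pool.Agent.H9DimN
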