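import Pool.Agent.AutDim3.Defs

set_option autoImplicit false

/-!
# Real cohomological dimension at most `n`
-/

namespace Pool.Agent.H9DimN

/-- `H^(n+1)(G; M) = 0` for every real vector space `M` with a linear action of `G`, in terms of
homogeneous cochains: every equivariant `c : G^(n+2) → M` whose coboundary vanishes is the coboundary
of an equivariant `b : G^(n+1) → M`. This says that `G` has cohomological dimension at most `n` over
the real numbers. -/
def DimLe (n : ℕ) (G : Type) [Group G] : Prop :=
  ∀ (M : Type) [AddCommGroup M] [Module ℝ M] (ρ : Representation ℝ G M)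
    (c : (Fin (n + 2) → G) → M),
    (∀ (g : G) (σ : Fin (n + 2) → G), c (fun i => g * σ i) = ρ g (c σ)) →
    (∀ τ : Fin (n + 3) → G,
      ∑ i : Fin (n + 3), (-1 : ℝ) ^ (i : ℕ) • c (fun j => τ (i.succAbove j)) = 0) →
    ∃ b : (Fin (n + 1) → G) → M,
      (∀ (g : G) (σ : Fin (n + 1) → G), b (fun i => g * σ i) = ρ g (b σ)) ∧
      ∀ σ : Fin (n + 2) → G,
        c σ = ∑ i : Fin (n + 2), (-1 : ℝ) ^ (i : ℕ) • b (fun j => σ (i.succAbove j))

end Pool.Agent.H9DimN
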