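import Pool.Agent.AutDim3.Wang
import Pool.Agent.H9DimN.Fund

set_option autoImplicit false

/-!
# The fundamental chain of `Heis × ℤ^m`
-/

namespace Pool.Agent.H9DimN

open Pool.Agent.AutDim3

theorem heis_scale (F : Ch Heis →ₗ[ℝ] ℝ) (hF : InvUnder (MonoidHom.id Heis) F)
    (hc : Closed 4 F) (t : ℕ) : F (push (Heis.dil t) fund) = (t : ℝ) ^ 4 * F fund := by
  obtain ⟨c₁, c₂, hcc, E, hEi, hE⟩ := heis_dim_one F nu hF nu_inv hc nu_closed
  have hEd : ∀ w ∈ Deg (G := Heis) 4, c₁ * F w + c₂ * nu w = E (bd w) := by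
    intro w hw
    have := eq_of_sg (c₁ • F + c₂ • nu) (E ∘ₗ bd) (fun l hl => by simpa using hE l hl) hw
    simpa using this
  have hdil : InvUnder (MonoidHom.id Heis) (E ∘ₗ push (Heis.dil t)) := by
    intro n l
    simp only [LinearMap.comp_apply, push_sg, MonoidHom.id_apply, List.map_map]
    have := hEi (Heis.dil t n) (l.map (Heis.dil t))
    rw [List.map_map] at this
    rw [← this]
    congr 2
    apply List.map_congr_left
    intro x _
    simp
  have h1 : c₁ * F fund + c₂ = 0 := by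
    have := hEd fund fund_mem_deg
    rw [nu_fund, fund_cycle E hEi] at this
    linarith
  have h2 : c₁ * F (push (Heis.dil t) fund) + c₂ * (t : ℝ) ^ 4 = 0 := by
    have := hEd (push (Heis.dil t) fund) (push_mem_deg _ fund_mem_deg)
    rw [nu_dil, nu_fund, ← push_bd] at this
    have h3 := fund_cycle _ hdil
    rw [LinearMap.comp_apply] at h3
    rw [h3] at this
    linarith
  have hc1 : c₁ ≠ 0 := by
    intro h
    rw [h] at h1 hcc
    rcases hcc with h' | h'
    · exact h' rfl
    · exact h' (by linarith)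
  have e2 : c₂ = - (c₁ * F fund) := by linarith
  rw [e2] at h2
  have : c₁ * (F (push (Heis.dil t) fund) - (t : ℝ) ^ 4 * F fund) = 0 := by linarith
  rcases mul_eq_zero.mp this with h | h
  · exact absurd h hc1
  · linarith

theorem heis_lin (n : Heis) (G : Type) [Group G] (C : Comb G) (φ : Heis →* G) :
    ∃ D : ℕ, ∀ t : ℕ, C.len (φ (Heis.dil t n)) ≤ D * t := by
  set S : Subgroup Heis :=
    { carrier := {n | ∃ D : ℕ, ∀ t : ℕ, C.len (φ (Heis.dil t n)) ≤ D * t}
      mul_mem' := by
        rintro g h ⟨D, hD⟩ ⟨D', hD'⟩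
        refine ⟨D + D', fun t => ?_⟩
        rw [map_mul, map_mul, add_mul]
        exact (C.len_mul _ _).trans (add_le_add (hD t) (hD' t))
      one_mem' := ⟨0, fun t => by rw [map_one, map_one, C.len_one]; exact Nat.zero_le _⟩
      inv_mem' := by
        rintro g ⟨D, hD⟩
        refine ⟨D, fun t => ?_⟩
        rw [map_inv, map_inv, C.len_inv]
        exact hD t } with hS
  have ha : Heis.a ∈ S := by
    refine ⟨C.len (φ Heis.a), fun t => ?_⟩
    rw [dil_a, map_pow, mul_comm]
    exact len_pow_le C _ t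
  have hb : Heis.b ∈ S := by
    refine ⟨C.len (φ Heis.b), fun t => ?_⟩
    rw [dil_b, map_pow, mul_comm]
    exact len_pow_le C _ t
  have hcm : Heis.c ∈ S := by
    refine ⟨2 * C.len (φ Heis.a) + 2 * C.len (φ Heis.b), fun t => ?_⟩
    rw [dil_c]
    simp only [map_mul, map_inv, map_pow]
    have h1 := len_pow_le C (φ Heis.a) t
    have h2 := len_pow_le C (φ Heis.b) t
    have h3 := C.len_mul (φ Heis.a ^ t * φ Heis.b ^ t * (φ Heis.a ^ t)⁻¹) (φ Heis.b ^ t)⁻¹
    have h4 := C.len_mul (φ Heis.a ^ t * φ Heis.b ^ t) (φ Heis.a ^ t)⁻¹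
    have h5 := C.len_mul (φ Heis.a ^ t) (φ Heis.b ^ t)
    rw [C.len_inv] at h3 h4
    nlinarith
  have hza : ∀ k : ℤ, Heis.a ^ k = ⟨k, 0, 0⟩ := by
    intro k
    induction k using Int.induction_on with
    | zero => rw [zpow_zero]; rfl
    | succ i ih =>
      rw [zpow_add_one, ih]
      ext <;> simp [Heis.a]
    | pred i ih =>
      rw [zpow_sub_one, ih]
      ext <;> simp [Heis.a]
      ring
  have hzb : ∀ k : ℤ, Heis.b ^ k = ⟨0, k, 0⟩ := by
    intro k
    induction k using Int.induction_on with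
    | zero => rw [zpow_zero]; rfl
    | succ i ih =>
      rw [zpow_add_one, ih]
      ext <;> simp [Heis.b]
    | pred i ih =>
      rw [zpow_sub_one, ih]
      ext <;> simp [Heis.b]
      ring
  have hzc : ∀ k : ℤ, Heis.c ^ k = ⟨0, 0, k⟩ := by
    intro k
    induction k using Int.induction_on with
    | zero => rw [zpow_zero]; rfl
    | succ i ih =>
      rw [zpow_add_one, ih]
      ext <;> simp [Heis.c]
    | pred i ih =>
      rw [zpow_sub_one, ih]
      ext <;> simp [Heis.c]
      ring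
  have hn : n = Heis.a ^ n.x * Heis.b ^ n.y * Heis.c ^ (n.z - n.x * n.y) := by
    rw [hza, hzb, hzc]
    ext <;> simp
  have hmem : n ∈ S := by
    rw [hn]
    exact S.mul_mem (S.mul_mem (S.zpow_mem ha _) (S.zpow_mem hb _)) (S.zpow_mem hcm _)
  exact hmem

/-- The Heisenberg group. -/
noncomputable def heisFund : Fund Heis 3 where
  z := fund
  nu := nu
  dil := Heis.dil
  mem := fund_mem_deg
  cyc := fund_cycle
  nu_inv := nu_inv
  nu_closed := nu_closed
  nu_z := nu_fund
  scale F hF hc t := heis_scale F hF hc t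
  lin n G _ C φ := heis_lin n G C φ

/-- The group `Heis × ℤ^m`. -/
def HZ : ℕ → Type
  | 0 => Heis
  | m + 1 => HZ m × Multiplicative ℤ

noncomputable instance instGroupHZ : (m : ℕ) → Group (HZ m)
  | 0 => inferInstanceAs (Group Heis)
  | m + 1 => @Prod.instGroup _ _ (instGroupHZ m) _

/-- The fundamental chain of `Heis × ℤ^m`. -/
noncomputable def hzFund : (m : ℕ) → Fund (HZ m) (m + 3)
  | 0 => heisFund
  | m + 1 => (hzFund m).prod

end Pool.Agent.H9DimN
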