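import Pool.Agent.AutDim3.Main
import Pool.Agent.H9DimN.HeisFund
import Pool.Agent.H9DimN.Vanish
import Pool.Agent.H9DimN.DimDefs

set_option autoImplicit false

namespace Pool.Agent.H9DimN

open Pool.Agent.AutDim3

theorem bd_ofFn {G : Type} {n : ℕ} (s : Fin (n + 1) → G) :
    bd (sg (List.ofFn s)) = ∑ i : Fin (n + 1), (-1 : ℝ) ^ (i : ℕ) •
      sg (List.ofFn fun j => s (i.succAbove j)) := by
  induction n with
  | zero =>
    rw [List.ofFn_succ, List.ofFn_zero, bd_cons, bd_nil, map_zero, sub_zero, Fin.sum_univ_one]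
    simp
  | succ n ih =>
    rw [List.ofFn_succ, bd_cons, ih (fun i => s i.succ), map_sum,
      Fin.sum_univ_succ (n := n + 1), sub_eq_add_neg, ← Finset.sum_neg_distrib]
    congr 1
    · simp
    · refine Finset.sum_congr rfl fun i _ => ?_
      rw [map_smul, cone_sg, List.ofFn_succ (f := fun j => s (i.succ.succAbove j)),
        Fin.succ_succAbove_zero]
      simp only [Fin.succ_succAbove_succ, Fin.val_succ, pow_succ, mul_neg, mul_one, neg_smul]

theorem exists_ofFn {G : Type} {n : ℕ} {l : List G} (h : l.length = n) :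
    ∃ s : Fin n → G, l = List.ofFn s := by
  subst h
  exact ⟨l.get, (List.ofFn_get l).symm⟩

/-- In dimension at most `n` the inclusion of the boundaries into the `n`-chains splits. -/
theorem exists_proj {G : Type} [Group G] (n : ℕ) (hG : DimLe n G) :
    ∃ e : Ch G →ₗ[ℝ] Ch G,
      (∀ (g : G) (l : List G), l.length = n + 1 →
        e (sg (l.map (g * ·))) = push (g * ·) (e (sg l))) ∧
      (∀ l : List G, l.length = n + 1 →
        e (sg l) ∈ Deg (G := G) (n + 1) ∧ bd (e (sg l)) = bd (sg l)) ∧
      (∀ l : List G, l.length = n + 2 → e (bd (sg l)) = 0) := by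
  classical
  set B : Submodule ℝ (Ch G) := (Deg (G := G) (n + 2)).map bd with hB
  have hBdeg : ∀ w ∈ B, w ∈ Deg (G := G) (n + 1) := by
    rintro _ ⟨w, hw, rfl⟩
    exact bd_mem_deg hw
  have hBbd : ∀ w ∈ B, bd w = 0 := by
    rintro _ ⟨w, hw, rfl⟩
    exact bd_bd w
  have hBpush : ∀ (g : G), ∀ w ∈ B, push (g * ·) w ∈ B := by
    rintro g _ ⟨w, hw, rfl⟩
    rw [push_bd]
    exact ⟨_, push_mem_deg _ hw, rfl⟩
  let ρ : Representation ℝ G B :=
    { toFun := fun g => (push (g * ·)).restrict (hBpush g)
      map_one' := by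
        ext1 w
        apply Subtype.ext
        have : (fun x : G => 1 * x) = fun x => x := by
          funext x
          exact one_mul x
        rw [LinearMap.coe_restrict_apply, this, push_id]
        rfl
      map_mul' := by
        intro g h
        ext1 w
        apply Subtype.ext
        rw [LinearMap.coe_restrict_apply]
        change _ = push (g * ·) (push (h * ·) w)
        rw [push_push]
        congr 2
        funext x
        simp [mul_assoc] }
  have hρ : ∀ g (w : B), (ρ g w : Ch G) = push (g * ·) w := fun g w => rfl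
  have hmem : ∀ s : Fin (n + 2) → G, bd (sg (List.ofFn s)) ∈ B := fun s =>
    ⟨_, sg_mem_deg (by simp), rfl⟩
  obtain ⟨b, hb1, hb2⟩ := hG B ρ (fun s => ⟨bd (sg (List.ofFn s)), hmem s⟩) (by
    intro g s
    apply Subtype.ext
    rw [hρ]
    change bd (sg (List.ofFn fun i => g * s i)) = push (g * ·) (bd (sg (List.ofFn s)))
    rw [push_bd, push_sg, List.map_ofFn]
    rfl) (by
    intro τ
    apply Subtype.ext
    rw [Submodule.coe_sum]
    simp only [Submodule.coe_smul, Submodule.coe_zero]
    have h1 : ∑ i : Fin (n + 3), (-1 : ℝ) ^ (i : ℕ) •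
        bd (sg (List.ofFn fun j => τ (i.succAbove j))) = bd (bd (sg (List.ofFn τ))) := by
      rw [bd_ofFn τ, map_sum]
      simp only [map_smul]
    rw [h1, bd_bd_sg])
  set b' : Ch G →ₗ[ℝ] Ch G := Finsupp.linearCombination ℝ
    (fun l : List G => if l.length = n + 1 then (b (fun i => l.getD i 1) : Ch G) else 0) with hb'
  have hb's : ∀ s : Fin (n + 1) → G, b' (sg (List.ofFn s)) = b s := by
    intro s
    have h1 : (fun i : Fin (n + 1) => (List.ofFn s).getD i 1) = s := by
      funext i
      rw [List.getD_eq_getElem _ _ (by rw [List.length_ofFn]; exact i.isLt), List.getElem_ofFn]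
    rw [hb']
    unfold sg
    rw [Finsupp.linearCombination_single, one_smul, if_pos (by simp), h1]
  refine ⟨LinearMap.id - b', ?_, ?_, ?_⟩
  · intro g l hl
    obtain ⟨s, rfl⟩ := exists_ofFn hl
    rw [List.map_ofFn, LinearMap.sub_apply, LinearMap.sub_apply, LinearMap.id_apply,
      LinearMap.id_apply, hb's, hb's, map_sub, push_sg, List.map_ofFn]
    congr 1
    have := hb1 g s
    change (b (fun i => g * s i) : Ch G) = _
    rw [this, hρ]
  · intro l hl
    obtain ⟨s, rfl⟩ := exists_ofFn hl
    rw [LinearMap.sub_apply, LinearMap.id_apply, hb's]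
    refine ⟨Submodule.sub_mem _ (sg_mem_deg (by simp)) (hBdeg _ (b s).2), ?_⟩
    rw [map_sub, hBbd _ (b s).2, sub_zero]
  · intro l hl
    obtain ⟨s, rfl⟩ := exists_ofFn hl
    have h1 := congrArg Subtype.val (hb2 s)
    rw [Submodule.coe_sum] at h1
    simp only [Submodule.coe_smul] at h1
    rw [LinearMap.sub_apply, LinearMap.id_apply, sub_eq_zero]
    conv_rhs => rw [bd_ofFn, map_sum]
    simp only [map_smul, hb's]
    exact h1

/-- An invariant function is bounded on lists of bounded length and diameter. -/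
theorem bounded_of_inv {G : Type} [Group G] (C : Comb G) (n : ℕ) (f : List G → ℝ)
    (hf : ∀ (g : G) (l : List G), l.length = n + 1 → f (l.map (g * ·)) = f l) (R : ℕ) :
    ∃ M : ℝ, ∀ l : List G, l.length = n + 1 → C.Small R l → f l ≤ M := by
  classical
  have hfin : {l : List G | l.length = n + 1 ∧ ∀ p ∈ l, C.len p ≤ R}.Finite := by
    have hb := C.fin_ball R
    have : Finite {g : G // C.len g ≤ R} := hb.to_subtype
    have h1 := List.finite_length_eq {g : G // C.len g ≤ R} (n + 1)
    refine (h1.image (List.map Subtype.val)).subset ?_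
    rintro l ⟨hl, hp⟩
    refine ⟨l.attach.map (fun x => ⟨x.1, hp x.1 x.2⟩), by simpa using hl, ?_⟩
    rw [List.map_map]
    exact List.attach_map_subtype_val l
  obtain ⟨M, hM⟩ := (hfin.image f).bddAbove
  refine ⟨M, ?_⟩
  intro l hl hs
  match l, hl with
  | p :: l', hl =>
    have h1 := hf p⁻¹ (p :: l') hl
    rw [← h1]
    apply hM
    refine ⟨_, ⟨?_, ?_⟩, rfl⟩
    · simpa using hl
    · intro q hq
      rw [List.mem_map] at hq
      obtain ⟨q', hq', rfl⟩ := hq
      exact hs p (by simp) q' hq'

/-- An automatic group of real dimension at most `n` contains no group with a fundamental chain of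
dimension `n` and dilations of degree `t ^ (n + 1)`. -/
theorem no_fund {N G : Type} [Group N] [Group G] {k : ℕ} (fd : Fund N (k + 1))
    (hG : IsAutomatic G) (hd : DimLe (k + 1) G) (φ : N →* G) (hφ : Function.Injective φ) :
    False := by
  classical
  obtain ⟨C⟩ := exists_comb G hG
  obtain ⟨e, he1, he2, he3⟩ := exists_proj (k + 1) hd
  obtain ⟨ρ, hρ1, hρ2⟩ := exists_retraction φ hφ
  -- extend `e` by zero
  set e' : Ch G →ₗ[ℝ] Ch G := Finsupp.linearCombination ℝ
    (fun l : List G => if l.length = k + 2 then e (sg l) else 0) with he'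
  have he's : ∀ l : List G, e' (sg l) = if l.length = k + 2 then e (sg l) else 0 := by
    intro l
    simp only [he', sg, Finsupp.linearCombination_single, one_smul]
  have he'd : ∀ w ∈ Deg (G := G) (k + 2), e' w = e w := by
    intro w hw
    exact eq_of_sg e' e (fun l hl => by rw [he's]; exact if_pos hl) hw
  have he'i : ∀ (g : G) (l : List G), e' (sg (l.map (g * ·))) = push (g * ·) (e' (sg l)) := by
    intro g l
    rw [he's, he's, List.length_map]
    by_cases hl : l.length = k + 2
    · rw [if_pos hl, if_pos hl, he1 g l hl]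
    · rw [if_neg hl, if_neg hl, map_zero]
  have hnrm : ∀ (g : G) (w : Ch G), nrm (push (g * ·) w) = nrm w := by
    intro g w
    apply le_antisymm (nrm_push_le _ _)
    have h1 := nrm_push_le (g⁻¹ * ·) (push (g * ·) w)
    rw [push_push] at h1
    have h2 : (fun x : G => g⁻¹ * x) ∘ (fun x => g * x) = fun x => x := by
      ext x; simp
    rw [h2, push_id] at h1
    exact h1
  have hkey : ∀ q : Quotient (trSetoid φ), kap φ q (e' (push φ fd.z)) = 0 := by
    intro q
    have := vanish fd C φ (kap φ q ∘ₗ e') ?_ ?_ ?_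
    · exact this
    · intro n l
      rw [LinearMap.comp_apply, LinearMap.comp_apply, he'i, (kap_inv φ q).apply]
    · intro l hl
      rw [LinearMap.comp_apply, he'd _ (bd_sg_mem_deg hl), he3 l hl, map_zero]
    · intro R
      obtain ⟨M, hM⟩ := bounded_of_inv C (k + 1) (fun l => nrm (e' (sg l)))
        (fun g l _ => by rw [he'i, hnrm]) R
      exact ⟨M, fun l hl hs => (kap_le φ q _).trans (hM l hl hs)⟩
  set V : Ch G →ₗ[ℝ] ℝ := fd.nu ∘ₗ push ρ with hV
  have hVi : InvUnder φ V := by
    intro n l
    simp only [hV, LinearMap.comp_apply, push_sg, List.map_map]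
    have := fd.nu_inv n (l.map ρ)
    rw [List.map_map] at this
    rw [← this]
    congr 2
    apply List.map_congr_left
    intro x _
    simp [hρ1]
  have h1 : V (e' (push φ fd.z)) = 0 := eq_zero_of_kap φ hVi hkey
  have hZ : push φ fd.z ∈ Deg (G := G) (k + 2) := push_mem_deg _ fd.mem
  have h2 : e (push φ fd.z) ∈ Deg (G := G) (k + 2) :=
    map_mem_of_sg e (fun l hl => (he2 l hl).1) hZ
  have h3 : bd (e (push φ fd.z)) = bd (push φ fd.z) :=
    eq_of_sg (bd ∘ₗ e) bd (fun l hl => by simpa using (he2 l hl).2) hZ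
  have h4 : V (push φ fd.z - e (push φ fd.z)) = 0 := by
    have h5 : bd (push φ fd.z - e (push φ fd.z)) = 0 := by rw [map_sub, h3, sub_self]
    rw [eq_bd_cone (x := (1 : G)) h5, hV, LinearMap.comp_apply, push_bd]
    exact fd.nu_closed.apply (push_mem_deg _ (cone_mem_deg _ (Submodule.sub_mem _ hZ h2)))
  rw [map_sub, ← he'd _ hZ, h1, sub_zero, hV, LinearMap.comp_apply, push_push] at h4
  have h6 : ρ ∘ φ = fun x => x := by ext x <;> simp [hρ2]
  rw [h6, push_id, fd.nu_z] at h4
  exact one_ne_zero h4

end Pool.Agent.H9DimN
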