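import Pool.Agent.AutDim3.Nilp
import Pool.Agent.AutDim3.NilpFg
import Pool.Agent.H9DimN.HeisFund
import Pool.Agent.H9DimN.WideDefs

set_option autoImplicit false

/-!
# From `Heis × ℤ^m` to nilpotent subgroups
-/

namespace Pool.Agent.H9DimN

open Pool.Agent.AutDim3

/-- The homomorphism on `Heis × ℤ^m`. -/
theorem exists_hzHom {G : Type} [Group G] (φ : Heis →* G) :
    ∀ (m : ℕ) (χ : (Fin m → Multiplicative ℤ) →* G), (∀ v n, χ v * φ n = φ n * χ v) →
      ∃ Φ : HZ m →* G, ∀ x : HZ m, ∃ (n : Heis) (v : Fin m → Multiplicative ℤ),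
        Φ x = φ n * χ v ∧ (n = 1 → v = 1 → x = 1)
  | 0, χ, _ => ⟨φ, fun x => ⟨x, 1, by rw [map_one, mul_one]; rfl, fun h _ => h⟩⟩
  | m + 1, χ, hχ => by
    let ι : (Fin m → Multiplicative ℤ) →* (Fin (m + 1) → Multiplicative ℤ) :=
      { toFun := fun v => Fin.snoc v 1
        map_one' := by
          ext i
          refine Fin.lastCases ?_ (fun i => ?_) i
          · simp
          · simp
        map_mul' := by
          intro v w
          ext i
          refine Fin.lastCases ?_ (fun i => ?_) i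
          · simp
          · simp }
    let κ : Multiplicative ℤ →* (Fin (m + 1) → Multiplicative ℤ) :=
      MonoidHom.mulSingle (fun _ : Fin (m + 1) => Multiplicative ℤ) (Fin.last m)
    obtain ⟨Φ', h'⟩ := exists_hzHom φ m (χ.comp ι) (fun v n => hχ (ι v) n)
    have hcomm : ∀ (x : HZ m) (k : Multiplicative ℤ), Commute (Φ' x) ((χ.comp κ) k) := by
      intro x k
      obtain ⟨n, v, hx, _⟩ := h' x
      rw [hx]
      refine Commute.mul_left ?_ ?_
      · exact (hχ (κ k) n).symm
      · show χ (ι v) * χ (κ k) = χ (κ k) * χ (ι v)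
        rw [← map_mul, ← map_mul, mul_comm]
    let Φ : HZ m × Multiplicative ℤ →* G := Φ'.noncommCoprod (χ.comp κ) hcomm
    refine ⟨Φ, ?_⟩
    rintro ⟨x, k⟩
    obtain ⟨n, v, hx, hv⟩ := h' x
    refine ⟨n, Fin.snoc v k, ?_, ?_⟩
    · have e1 : (Fin.snoc v k : Fin (m + 1) → Multiplicative ℤ) = ι v * κ k := by
        ext i
        refine Fin.lastCases ?_ (fun i => ?_) i
        · simp [ι, κ]
        · simp [ι, κ, Pi.mulSingle, Function.update, (Fin.castSucc_lt_last i).ne]
      rw [e1, map_mul]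
      show Φ' x * χ (κ k) = _
      rw [hx, mul_assoc]
      rfl
    · intro h1 h2
      have h3 : k = 1 := by
        have := congrFun h2 (Fin.last m)
        simpa using this
      have h4 : v = 1 := by
        funext i
        have := congrFun h2 i.castSucc
        simpa using this
      show (x, k) = (1, 1)
      rw [hv h1 h4, h3]

/-- A central element of the Heisenberg group is a power of `c`. -/
theorem eq_c_zpow (n : Heis) (h : ∀ n', n * n' = n' * n) : n.x = 0 ∧ n.y = 0 := by
  have h1 := congrArg Heis.z (h Heis.a)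
  have h2 := congrArg Heis.z (h Heis.b)
  simp [Heis.a, Heis.b] at h1 h2
  exact ⟨h2, h1⟩

theorem c_zpow (k : ℤ) : Heis.c ^ k = ⟨0, 0, k⟩ := by
  induction k using Int.induction_on with
  | zero => rw [zpow_zero]; rfl
  | succ i ih =>
    rw [zpow_add_one, ih]
    ext <;> simp [Heis.c]
  | pred i ih =>
    rw [zpow_sub_one, ih]
    ext <;> simp [Heis.c]
    ring

/-- A coordinate subgroup of `ℤ^(m+1)` avoids a given cyclic subgroup. -/
theorem exists_coord {G : Type} [Group G] (m : ℕ)
    (ψ : (Fin (m + 1) → Multiplicative ℤ) →* G) (hψ : Function.Injective ψ) (z : G) :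
    ∃ i : Fin (m + 1), ∀ u : Fin (m + 1) → Multiplicative ℤ, u i = 1 →
      ∀ k : ℤ, ψ u = z ^ k → u = 1 := by
  by_contra hcon
  push Not at hcon
  obtain ⟨u, _, k, hk, hu1⟩ := hcon 0
  obtain ⟨j, hj⟩ : ∃ j, u j ≠ 1 := by
    by_contra h
    push Not at h
    exact hu1 (funext h)
  obtain ⟨u', hu'j, k', hk', hu'1⟩ := hcon j
  have h1 : u ^ k' = u' ^ k := by
    apply hψ
    rw [map_zpow, map_zpow, hk, hk', ← zpow_mul, ← zpow_mul, mul_comm]
  have h2 := congrFun h1 j
  rw [Pi.pow_apply, Pi.pow_apply, hu'j, one_zpow] at h2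
  have h3 : k' = 0 := by
    by_contra h
    apply hj
    have h4 : k' * Multiplicative.toAdd (u j) = 0 := by
      have := congrArg Multiplicative.toAdd h2
      rw [toAdd_zpow] at this
      simpa using this
    rcases mul_eq_zero.mp h4 with h5 | h5
    · exact absurd h5 h
    · exact Multiplicative.toAdd.injective h5
  rw [h3, zpow_zero] at hk'
  exact hu'1 (hψ (by rw [hk', map_one]))

/-- A Heisenberg subgroup of `H` and a commuting free abelian group give `Heis × ℤ^m`. -/
theorem exists_hz {G : Type} [Group G] (m : ℕ) (H : Subgroup G) (hw : Wide m H)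
    (φ : Heis →* G) (hφ : Function.Injective φ) (hr : ∀ n, φ n ∈ H) :
    ∃ Φ : HZ m →* G, Function.Injective Φ := by
  rcases hw with rfl | ⟨ψ, hψ, hψH⟩
  · exact ⟨φ, hφ⟩
  obtain ⟨i, hi⟩ := exists_coord m ψ hψ (φ Heis.c)
  let ι : (Fin m → Multiplicative ℤ) →* (Fin (m + 1) → Multiplicative ℤ) :=
    { toFun := fun v => Fin.insertNth (α := fun _ => Multiplicative ℤ) i 1 v
      map_one' := by
        ext j
        refine Fin.succAboveCases i ?_ (fun j => ?_) j
        · simp
        · simp
      map_mul' := by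
        intro v w
        ext j
        refine Fin.succAboveCases i ?_ (fun j => ?_) j
        · simp
        · simp }
  obtain ⟨Φ, hΦ⟩ := exists_hzHom φ m (ψ.comp ι) (fun v n => hψH (ι v) (φ n) (hr n))
  refine ⟨Φ, ?_⟩
  rw [injective_iff_map_eq_one]
  intro x hx
  obtain ⟨n, v, h1, h2⟩ := hΦ x
  rw [hx] at h1
  have h3 : ψ (ι v) = φ n⁻¹ := by
    rw [map_inv]
    exact (inv_eq_of_mul_eq_one_right h1.symm).symm
  -- `n` is central
  have h4 : ∀ n', n⁻¹ * n' = n' * n⁻¹ := by
    intro n'
    apply hφ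
    rw [map_mul, map_mul, ← h3]
    exact hψH (ι v) (φ n') (hr n')
  obtain ⟨h5, h6⟩ := eq_c_zpow n⁻¹ h4
  have h7 : n⁻¹ = Heis.c ^ (n⁻¹).z := by
    rw [c_zpow]
    exact Heis.ext h5 h6 rfl
  have h8 : ι v = 1 := by
    refine hi (ι v) ?_ (n⁻¹).z ?_
    · show Fin.insertNth (α := fun _ => Multiplicative ℤ) i 1 v i = 1
      simp
    · rw [h3, ← map_zpow, ← h7]
  have h9 : v = 1 := by
    funext j
    have h10 := congrFun h8 (i.succAbove j)
    have h11 : ι v (i.succAbove j) = v j := by
      show Fin.insertNth (α := fun _ => Multiplicative ℤ) i 1 v (i.succAbove j) = v j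
      simp
    rw [h11] at h10
    exact h10
  have h12 : n = 1 := by
    rw [h8, map_one] at h3
    have := hφ (h3.symm.trans (map_one φ).symm)
    exact inv_eq_one.mp this
  exact h2 h12 h9

/-- A torsion-free nilpotent subgroup is commutative if it contains no Heisenberg group. -/
theorem comm_of_no_heis {G : Type} [Group G] (H : Subgroup G)
    (hno : ∀ φ : Heis →* G, Function.Injective φ → (∀ n, φ n ∈ H) → False)
    (hH : Group.IsNilpotent H) (ht : ∀ g ∈ H, g ≠ 1 → ¬ IsOfFinOrder g) :
    ∀ a ∈ H, ∀ b ∈ H, a * b = b * a := by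
  by_contra hcon
  push Not at hcon
  obtain ⟨a, ha, b, hb, hab⟩ := hcon
  obtain ⟨φ, hφ⟩ := exists_heis (N := H)
    (by
      intro g hg hfin
      refine ht g.1 g.2 ?_ ?_
      · intro h; exact hg (Subtype.ext h)
      · exact H.subtype.isOfFinOrder hfin)
    ⟨⟨a, ha⟩, ⟨b, hb⟩, fun h => hab (by simpa using congrArg Subtype.val h)⟩
  exact hno (H.subtype.comp φ) (by
    rw [MonoidHom.coe_comp]
    exact Subtype.val_injective.comp hφ) (fun n => (φ n).2)

/-- Nilpotent subgroups that are finitely generated or virtually torsion-free are virtually abelian if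
they commute with a large free abelian group and `G` does not contain `Heis × ℤ^m`. -/
theorem virtually_abelian_of_no_hz {G : Type} [Group G] (m : ℕ)
    (hno : ∀ Φ : HZ m →* G, Function.Injective Φ → False)
    (H : Subgroup G) (hw : Wide m H) (hH : Group.IsNilpotent H)
    (h : H.FG ∨ ∃ T : Subgroup G, T.relIndex H ≠ 0 ∧ ∀ g ∈ T, g ≠ 1 → ¬ IsOfFinOrder g) :
    ∃ A : Subgroup G, A ≤ H ∧ (A.subgroupOf H).index ≠ 0 ∧
      ∀ a ∈ A, ∀ b ∈ A, a * b = b * a := by
  have hno' : ∀ φ : Heis →* G, Function.Injective φ → (∀ n, φ n ∈ H) → False := by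
    intro φ hφ hr
    obtain ⟨Φ, hΦ⟩ := exists_hz m H hw φ hφ hr
    exact hno Φ hΦ
  rcases h with hfg | ⟨T, hT, ht⟩
  · obtain ⟨B, hB, hBc⟩ := virtually_abelian_of_fg H ((Group.fg_iff_subgroup_fg H).mpr hfg)
      (fun φ hφ => hno' (H.subtype.comp φ) (by
        rw [MonoidHom.coe_comp]
        exact Subtype.val_injective.comp hφ) (fun n => (φ n).2))
    refine ⟨B.map H.subtype, Subgroup.map_subtype_le B, ?_, ?_⟩
    · have : (B.map H.subtype).subgroupOf H = B :=
        Subgroup.comap_map_eq_self_of_injective H.subtype_injective B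
      rw [this]
      exact hB
    · rintro _ ⟨a, ha, rfl⟩ _ ⟨b, hb, rfl⟩
      rw [← map_mul, ← map_mul, hBc a ha b hb]
  · refine ⟨T ⊓ H, inf_le_right, ?_, ?_⟩
    · have : (T ⊓ H).subgroupOf H = T.subgroupOf H := by
        rw [Subgroup.inf_subgroupOf_right]
      rw [this]
      exact hT
    · apply comm_of_no_heis (T ⊓ H)
      · intro φ hφ hr
        exact hno' φ hφ (fun n => (hr n).2)
      · have : Group.IsNilpotent ((T ⊓ H).subgroupOf H) := inferInstance
        exact (Group.isNilpotent_congr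
          (Subgroup.subgroupOfEquivOfLe (inf_le_right : T ⊓ H ≤ H))).mp this
      · intro g hg
        exact ht g hg.1

end Pool.Agent.H9DimN
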