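import Pool.Agent.H9Thin.LiftSub
import Pool.Agent.H9Thin.Orbit
import Pool.Agent.H9Thin.Pair
import Pool.Agent.H9DimN.ThinDefs
import Pool.Agent.H9DimN.Vanish
import Pool.Agent.H9DimN.Wide

set_option autoImplicit false

/-!
# Automatic groups with a thin complex in dimension `n`
-/

namespace Pool.Agent.H9DimN

open Pool.Agent.AutDim3
open Pool.Agent.H9Thin (perm perm_single stepUs stepVs stepHs orb prj prj_single prj_perm descend
  prj_surj prj_coef l1 l1_perm l1_prj_le l1_nonneg eq_zero_of_l1 separate exists_of_functional)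

attribute [local instance] ThinComplex.act

/-- A linear map on chains of degree `n` given on lists. -/
theorem deg_ext {G V : Type} [AddCommGroup V] [Module ℝ V] (f g : Ch G →ₗ[ℝ] V) (n : ℕ)
    (h : ∀ l : List G, l.length = n → f (sg l) = g (sg l)) {w : Ch G}
    (hw : w ∈ Deg (G := G) n) : f w = g w :=
  eq_of_sg f g (fun l hl => h l hl) hw

variable {Γ G : Type} [Group Γ] [Group G]

/-- A function invariant under a subgroup of finite index is bounded on lists of bounded length and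
diameter. -/
theorem bounded_of_sub (C : Comb G) (ι : Γ →* G) (hfi : ι.range.FiniteIndex) (n : ℕ)
    (f : List G → ℝ)
    (hf : ∀ (g : Γ) (l : List G), l.length = n + 1 → f (l.map (ι g * ·)) = f l) (R : ℕ) :
    ∃ M : ℝ, ∀ l : List G, l.length = n + 1 → C.Small R l → f l ≤ M := by
  classical
  -- a finite set of representatives
  obtain ⟨S, hS⟩ : ∃ S : Finset G, ∀ x : G, ∃ (g : Γ) (s : G), s ∈ S ∧ x = ι g * s := by
    have : Finite (Quotient (QuotientGroup.rightRel ι.range)) := by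
      have := Subgroup.finite_quotient_of_finiteIndex (H := ι.range)
      exact Finite.of_equiv _ (QuotientGroup.quotientRightRelEquivQuotientLeftRel ι.range).symm
    have := Fintype.ofFinite (Quotient (QuotientGroup.rightRel ι.range))
    refine ⟨Finset.univ.image (fun q : Quotient (QuotientGroup.rightRel ι.range) => q.out), ?_⟩
    intro x
    have := Quotient.exact (Quotient.out_eq (Quotient.mk (QuotientGroup.rightRel ι.range) x))
    obtain ⟨g, hg⟩ := QuotientGroup.rightRel_apply.mp this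
    refine ⟨g, Quotient.out (Quotient.mk (QuotientGroup.rightRel ι.range) x),
      Finset.mem_image.mpr ⟨_, Finset.mem_univ _, rfl⟩, ?_⟩
    rw [hg]
    group
  obtain ⟨L, hL⟩ : ∃ L : ℕ, ∀ s ∈ S, C.len s ≤ L :=
    ⟨S.sup C.len, fun s hs => Finset.le_sup (f := C.len) hs⟩
  have hfin : {l : List G | l.length = n + 1 ∧ ∀ p ∈ l, C.len p ≤ L + R}.Finite := by
    have hb := C.fin_ball (L + R)
    have : Finite {g : G // C.len g ≤ L + R} := hb.to_subtype
    have h1 := List.finite_length_eq {g : G // C.len g ≤ L + R} (n + 1)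
    refine (h1.image (List.map Subtype.val)).subset ?_
    rintro l ⟨hl, hp⟩
    refine ⟨l.attach.map (fun x => ⟨x.1, hp x.1 x.2⟩), by simpa using hl, ?_⟩
    rw [List.map_map]
    exact List.attach_map_subtype_val l
  obtain ⟨M, hM⟩ := (hfin.image f).bddAbove
  refine ⟨M, ?_⟩
  intro l hl hs
  match l, hl with
  | p :: l', hl =>
    obtain ⟨g, s, hsS, hps⟩ := hS p
    have h1 := hf g⁻¹ (p :: l') hl
    rw [← h1]
    apply hM
    refine ⟨_, ⟨?_, ?_⟩, rfl⟩
    · simpa using hl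
    · intro q hq
      rw [List.mem_map] at hq
      obtain ⟨q', hq', rfl⟩ := hq
      have h2 : ι g⁻¹ * q' = s * (p⁻¹ * q') := by
        rw [hps, map_inv]
        group
      rw [h2]
      exact (C.len_mul _ _).trans (add_le_add (hL s hsS) (hs p (by simp) q' hq'))

/-- The comparison maps in degree `i`. -/
structure Maps {n : ℕ} (K : ThinComplex n Γ) (ι : Γ →* G) (i : ℕ) where
  U : Ch G →ₗ[ℝ] (K.E i →₀ ℝ)
  B : (K.E i →₀ ℝ) →ₗ[ℝ] Ch G
  B' : (K.E (i + 1) →₀ ℝ) →ₗ[ℝ] Ch G
  H' : Ch G →ₗ[ℝ] Ch G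
  H : Ch G →ₗ[ℝ] Ch G
  Ue : ∀ (g : Γ) (l : List G), U (sg (l.map (ι g * ·))) = perm Γ (K.E i) g (U (sg l))
  Uc : ∀ l : List G, l.length = i + 2 → ∃ y, K.d i y = U (bd (sg l))
  Be : ∀ g x, B (perm Γ (K.E i) g x) = push (ι g * ·) (B x)
  Bd : ∀ x, B x ∈ Deg (G := G) (i + 1)
  Be' : ∀ g x, B' (perm Γ (K.E (i + 1)) g x) = push (ι g * ·) (B' x)
  Bd' : ∀ x, B' x ∈ Deg (G := G) (i + 2)
  Bb' : ∀ c, bd (B' c) = B (K.d i c)
  He : ∀ (g : Γ) (l : List G), H (sg (l.map (ι g * ·))) = push (ι g * ·) (H (sg l))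
  He' : ∀ (g : Γ) (l : List G), H' (sg (l.map (ι g * ·))) = push (ι g * ·) (H' (sg l))
  Hd' : ∀ l : List G, l.length = i + 1 → H' (sg l) ∈ Deg (G := G) (i + 2)
  Hk : ∀ l : List G, l.length = i + 1 → B (U (sg l)) - sg l = bd (H' (sg l)) + H (bd (sg l))
  Hv : ∀ v ∈ Deg (G := G) (i + 1), bd v = 0 → B (U v) - v = bd (H' v)

theorem comp_equi {n : ℕ} {K : ThinComplex n Γ} {ι : Γ →* G} {i : ℕ}
    (U : Ch G →ₗ[ℝ] (K.E i →₀ ℝ)) (B : (K.E i →₀ ℝ) →ₗ[ℝ] Ch G)
    (hU : ∀ (g : Γ) (l : List G), U (sg (l.map (ι g * ·))) = perm Γ (K.E i) g (U (sg l)))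
    (hB : ∀ g x, B (perm Γ (K.E i) g x) = push (ι g * ·) (B x)) (g : Γ) (l : List G) :
    (B ∘ₗ U) (sg (l.map (ι g * ·))) = push (ι g * ·) ((B ∘ₗ U) (sg l)) := by
  rw [LinearMap.comp_apply, LinearMap.comp_apply, hU, hB]

/-- Degree zero. -/
theorem maps_zero {n : ℕ} (K : ThinComplex (n + 1) Γ) (ι : Γ →* G) (hι : Function.Injective ι) :
    Nonempty (Maps K ι 0) := by
  classical
  -- the augmentation
  set D₀ : (K.E 0 →₀ ℝ) →ₗ[ℝ] ℝ := Finsupp.linearCombination ℝ (fun _ => (1 : ℝ)) with hD₀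
  have hD₀s : ∀ c : K.E 0 →₀ ℝ, D₀ c = c.sum fun _ r => r := by
    intro c
    simp [hD₀, Finsupp.linearCombination_apply]
  set ρ₀ : Representation ℝ Γ ℝ := Representation.trivial ℝ Γ ℝ with hρ₀
  have hρ₀a : ∀ (g : Γ) (x : ℝ), ρ₀ g x = x := fun g x => rfl
  have hD₀e : ∀ g x, D₀ (perm Γ (K.E 0) g x) = ρ₀ g (D₀ x) := by
    intro g x
    rw [hρ₀a]
    have : D₀ ∘ₗ (perm Γ (K.E 0) g) = D₀ := by
      apply Finsupp.lhom_ext
      intro y r
      rw [LinearMap.comp_apply, perm_single]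
      simp [hD₀, Finsupp.linearCombination_single]
    exact LinearMap.congr_fun this x
  have hde : ∀ i ≤ n + 1, ∀ g x, K.d i (perm Γ (K.E (i + 1)) g x) =
      perm Γ (K.E i) g (K.d i x) := fun i hi g x => K.equivariant i hi g x
  -- lifting
  set U₀ : Ch G →ₗ[ℝ] ℝ := Finsupp.linearCombination ℝ (fun _ => (1 : ℝ)) with hU₀
  have hU₀s : ∀ l : List G, U₀ (sg l) = 1 := by
    intro l
    simp [hU₀, sg, Finsupp.linearCombination_single]
  obtain ⟨U₁, hU₁e, hU₁⟩ := stepUs ι hι ρ₀ (perm Γ (K.E 0)) D₀ hD₀e U₀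
    (fun g l => by rw [hU₀s, hU₀s, hρ₀a]) 0 (by
      intro l hl
      obtain ⟨x⟩ := K.nonempty
      refine ⟨Finsupp.single x 1, ?_⟩
      match l, hl with
      | [y], _ =>
        rw [bd_cons, bd_nil, map_zero, sub_zero, hU₀s]
        simp [hD₀, Finsupp.linearCombination_single])
  have hU₁w : ∀ w ∈ Deg (G := G) 1, D₀ (U₁ w) = U₀ (bd w) := fun w hw =>
    deg_ext (D₀ ∘ₗ U₁) (U₀ ∘ₗ bd) 1 hU₁ hw
  -- back
  set B₀ : ℝ →ₗ[ℝ] Ch G := LinearMap.toSpanSingleton ℝ (Ch G) (sg []) with hB₀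
  have hB₀a : ∀ r : ℝ, B₀ r = r • sg [] := fun r => rfl
  have hbB₀ : ∀ r, bd (B₀ r) = 0 := by
    intro r
    rw [hB₀a, map_smul, bd_nil, smul_zero]
  obtain ⟨B₁, hB₁e, hB₁d, hB₁⟩ := stepVs ι (K.free 0 (by omega)) ρ₀ D₀ hD₀e 0 B₀
    (fun g x => by rw [hρ₀a, hB₀a, map_smul, push_sg, List.map_nil])
    (fun x => by rw [hB₀a]; exact Submodule.smul_mem _ _ (sg_mem_deg rfl))
    (fun c => hbB₀ _)
  have hdd0 : ∀ c, D₀ (K.d 0 c) = 0 := by
    intro c
    rw [hD₀s]
    exact (K.exact_zero _).mpr ⟨c, rfl⟩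
  obtain ⟨B₂, hB₂e, hB₂d, hB₂⟩ := stepVs ι (K.free 1 (by omega)) (perm Γ (K.E 0)) (K.d 0)
    (hde 0 (by omega)) 1 B₁ hB₁e hB₁d (fun c => by rw [hB₁, hdd0, map_zero])
  obtain ⟨H₁, hH₁e, hH₁d, hH₁k, hH₁⟩ := stepHs ι (B₀ ∘ₗ U₀) (B₁ ∘ₗ U₁) 0 0
    (comp_equi U₁ B₁ hU₁e hB₁e) (fun l _ => hB₁d _) (fun g l => by simp)
    (fun l _ => by simp)
    (fun l hl => by
      rw [LinearMap.comp_apply, LinearMap.comp_apply, hB₁, hU₁w _ (sg_mem_deg hl)])
    (fun v hv _ => by
      have := deg_ext (B₀ ∘ₗ U₀) LinearMap.id 0 (fun l hl => by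
        match l, hl with
        | [], _ =>
          rw [LinearMap.comp_apply, hU₀s, hB₀a, one_smul]
          rfl) hv
      rw [this]
      simp)
  exact ⟨{
    U := U₁
    B := B₁
    B' := B₂
    H' := H₁
    H := 0
    Ue := hU₁e
    Uc := fun l hl => by
      apply (K.exact_zero _).mp
      rw [← hD₀s, hU₁w _ (bd_sg_mem_deg hl), bd_bd, map_zero]
    Be := hB₁e
    Bd := hB₁d
    Be' := hB₂e
    Bd' := hB₂d
    Bb' := hB₂
    He := fun g l => by simp
    He' := hH₁e
    Hd' := hH₁d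
    Hk := hH₁k
    Hv := hH₁ }⟩

/-- The next degree. -/
theorem maps_succ {n : ℕ} (K : ThinComplex n Γ) (ι : Γ →* G) (hι : Function.Injective ι) (i : ℕ)
    (hi : i < n) (M : Maps K ι i) : Nonempty (Maps K ι (i + 1)) := by
  classical
  have hde : ∀ i ≤ n, ∀ g x, K.d i (perm Γ (K.E (i + 1)) g x) =
      perm Γ (K.E i) g (K.d i x) := fun i hi g x => K.equivariant i hi g x
  obtain ⟨U, hUe, hU⟩ := stepUs ι hι (perm Γ (K.E i)) (perm Γ (K.E (i + 1))) (K.d i)
    (hde i hi.le) M.U M.Ue (i + 1) M.Uc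
  have hUw : ∀ w ∈ Deg (G := G) (i + 2), K.d i (U w) = M.U (bd w) := fun w hw =>
    deg_ext (K.d i ∘ₗ U) (M.U ∘ₗ bd) (i + 2) hU hw
  have hdd : ∀ c, K.d i (K.d (i + 1) c) = 0 := fun c => (K.exact i hi _).mpr ⟨c, rfl⟩
  obtain ⟨B, hBe, hBd, hB⟩ := stepVs ι (K.free (i + 2) (by omega)) (perm Γ (K.E (i + 1)))
    (K.d (i + 1)) (hde (i + 1) (by omega)) (i + 2) M.B' M.Be' M.Bd' (fun c => by
      rw [M.Bb', hdd, map_zero])
  obtain ⟨H, hHe, hHd, hHk, hHv⟩ := stepHs ι (M.B ∘ₗ M.U) (M.B' ∘ₗ U) M.H' (i + 1)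
    (comp_equi U M.B' hUe M.Be') (fun l _ => M.Bd' _) M.He' M.Hd'
    (fun l hl => by
      rw [LinearMap.comp_apply, LinearMap.comp_apply, M.Bb', hUw _ (sg_mem_deg hl)])
    M.Hv
  exact ⟨{
    U := U
    B := M.B'
    B' := B
    H' := H
    H := M.H'
    Ue := hUe
    Uc := fun l hl => by
      apply (K.exact i hi _).mp
      rw [hUw _ (bd_sg_mem_deg hl), bd_bd, map_zero]
    Be := M.Be'
    Bd := M.Bd'
    Be' := hBe
    Bd' := hBd
    Bb' := hB
    He := M.He'
    He' := hHe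
    Hd' := hHd
    Hk := hHk
    Hv := hHv }⟩

theorem exists_maps {n : ℕ} (K : ThinComplex (n + 1) Γ) (ι : Γ →* G)
    (hι : Function.Injective ι) : ∀ i ≤ n + 1, Nonempty (Maps K ι i) := by
  intro i
  induction i with
  | zero => exact fun _ => maps_zero K ι hι
  | succ i ih =>
    intro hi
    obtain ⟨M⟩ := ih (by omega)
    exact maps_succ K ι hι i (by omega) M

/-- The boundary of the quotient in terms of at most two cofaces. -/
theorem exists_cofaces {n : ℕ} (K : ThinComplex n Γ) (hne : Nonempty (K.E (n + 1)))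
    (e : K.E n) :
    ∃ (f₁ f₂ : K.E (n + 1)) (a₁ a₂ : ℝ), (a₁ = 0 ∨ |a₁| = 1) ∧ (a₂ = 0 ∨ |a₂| = 1) ∧
      ∃ A : Finset (K.E (n + 1)), (∀ f, K.d n (Finsupp.single f 1) e ≠ 0 → f ∈ A) ∧
        ∀ v : K.E (n + 1) → ℝ, ∑ f ∈ A, K.d n (Finsupp.single f 1) e * v f =
          a₁ * v f₁ + a₂ * v f₂ := by
  classical
  set S : Set (K.E (n + 1)) := {f | K.d n (Finsupp.single f 1) e ≠ 0} with hS
  have hle : S.encard ≤ 2 := K.thin e
  have hfin : S.Finite := Set.finite_of_encard_le_coe (k := 2) (by exact_mod_cast hle)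
  have habs : ∀ f ∈ S, |K.d n (Finsupp.single f 1) e| = 1 := by
    intro f hf
    rcases K.unit e f with h | h | h
    · exact absurd h hf
    · rw [h, abs_one]
    · rw [h, abs_neg, abs_one]
  have hcard : hfin.toFinset.card ≤ 2 := by
    have h1 : S.encard = hfin.toFinset.card := hfin.encard_eq_coe_toFinset_card
    rw [h1] at hle
    exact_mod_cast hle
  obtain ⟨f₀⟩ := hne
  have hmem : ∀ f, K.d n (Finsupp.single f 1) e ≠ 0 → f ∈ hfin.toFinset :=
    fun f hf => hfin.mem_toFinset.mpr hf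
  interval_cases hc : hfin.toFinset.card
  · refine ⟨f₀, f₀, 0, 0, Or.inl rfl, Or.inl rfl, hfin.toFinset, hmem, fun v => ?_⟩
    rw [Finset.card_eq_zero.mp hc]
    simp
  · obtain ⟨f, hf⟩ := Finset.card_eq_one.mp hc
    have hfS : f ∈ S := hfin.mem_toFinset.mp (by rw [hf]; exact Finset.mem_singleton_self f)
    refine ⟨f, f₀, K.d n (Finsupp.single f 1) e, 0, Or.inr (habs f hfS), Or.inl rfl,
      hfin.toFinset, hmem, fun v => ?_⟩
    rw [hf, Finset.sum_singleton, zero_mul, add_zero]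
  · obtain ⟨f, f', hff, hf⟩ := Finset.card_eq_two.mp hc
    have hfS : f ∈ S := hfin.mem_toFinset.mp (by rw [hf]; simp)
    have hfS' : f' ∈ S := hfin.mem_toFinset.mp (by rw [hf]; simp)
    refine ⟨f, f', K.d n (Finsupp.single f 1) e, K.d n (Finsupp.single f' 1) e,
      Or.inr (habs f hfS), Or.inr (habs f' hfS'), hfin.toFinset, hmem, fun v => ?_⟩
    rw [hf, Finset.sum_pair hff]

/-- An automatic group with a subgroup `Γ` of finite index that has a thin complex in dimension
`k + 1` contains no group `N` with a fundamental chain of this dimension inside this subgroup. -/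
theorem no_fund_sub {N : Type} [Group N] {k : ℕ} (fd : Fund N (k + 1)) (hG : IsAutomatic G)
    (ι : Γ →* G) (hι : Function.Injective ι) (hfi : ι.range.FiniteIndex)
    (K : ThinComplex (k + 1) Γ) (φ : N →* Γ) (hφ : Function.Injective φ) : False := by
  classical
  obtain ⟨C⟩ := exists_comb G hG
  obtain ⟨M⟩ := exists_maps K ι hι (k + 1) le_rfl
  have hde : ∀ g x, K.d (k + 1) (perm Γ (K.E (k + 1 + 1)) g x) =
      perm Γ (K.E (k + 1)) g (K.d (k + 1) x) :=
    fun g x => K.equivariant (k + 1) le_rfl g x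
  have hf3 : ∀ (g : Γ) (x : K.E (k + 1)), g • x = x → g = 1 := K.free (k + 1) (by omega)
  have hf4 : ∀ (g : Γ) (x : K.E (k + 1 + 1)), g • x = x → g = 1 := K.free (k + 2) le_rfl
  -- the homomorphism to the big group
  set θ : N →* G := ι.comp φ with hθ
  have hθinj : Function.Injective θ := by
    rw [hθ, MonoidHom.coe_comp]
    exact hι.comp hφ
  -- the quotient boundary
  obtain ⟨D, hD⟩ := descend φ (E := K.E (k + 1 + 1)) (prj φ (K.E (k + 1)) ∘ₗ K.d (k + 1)) (by
    intro n c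
    rw [LinearMap.comp_apply, LinearMap.comp_apply, hde, prj_perm])
  have hD' : ∀ c, D (prj φ (K.E (k + 1 + 1)) c) = prj φ (K.E (k + 1)) (K.d (k + 1) c) :=
    fun c => by rw [hD]; rfl
  set z : Ch G := push θ fd.z with hz
  set w := prj φ (K.E (k + 1)) (M.U z) with hw
  -- every bounded functional kills `w`
  have hkill : ∀ ψ : (Quotient (orb φ (K.E (k + 1))) →₀ ℝ) →ₗ[ℝ] ℝ, (∀ x, |ψ x| ≤ l1 x) →
      (∀ b, ψ (D b) = 0) → ψ w = 0 := by
    intro ψ h1 h2
    have := vanish fd C θ (ψ ∘ₗ prj φ (K.E (k + 1)) ∘ₗ M.U) ?_ ?_ ?_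
    · exact this
    · intro n l
      simp only [LinearMap.comp_apply]
      have e1 : M.U (sg (l.map (θ n * ·))) = perm Γ (K.E (k + 1)) (φ n) (M.U (sg l)) :=
        M.Ue (φ n) l
      rw [e1, prj_perm]
    · intro l hl
      simp only [LinearMap.comp_apply]
      obtain ⟨y, hy⟩ := M.Uc l hl
      rw [← hy, ← hD']
      exact h2 _
    · intro R
      obtain ⟨M', hM'⟩ := bounded_of_sub C ι hfi (k + 1) (fun l => l1 (M.U (sg l)))
        (fun g l _ => by rw [M.Ue, l1_perm]) R
      refine ⟨M', fun l hl hs => ?_⟩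
      simp only [LinearMap.comp_apply]
      exact (h1 _).trans ((l1_prj_le φ _).trans (hM' l hl hs))
  -- hence `w` is a boundary
  have hwb : ∃ b, D b = w := by
    rcases isEmpty_or_nonempty (K.E (k + 1 + 1)) with hemp | hne
    · -- no cells of the top dimension
      have hD0 : ∀ b, D b = 0 := by
        intro b
        obtain ⟨c, rfl⟩ := prj_surj φ b
        rw [Subsingleton.elim c 0, map_zero, map_zero]
      refine ⟨0, ?_⟩
      rw [hD0]
      by_contra hne
      have hpos : 0 < l1 w :=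
        lt_of_le_of_ne (l1_nonneg w) (fun h => hne (eq_zero_of_l1 h.symm).symm)
      obtain ⟨ψ, h1, -, h3⟩ := separate (⊥ : Submodule ℝ _) w (l1 w) hpos (by
        intro s hs
        rw [(Submodule.mem_bot ℝ).mp hs, sub_zero])
      exact h3 (hkill ψ h1 fun b => by rw [hD0, map_zero])
    · have hex := fun e : K.E (k + 1) => exists_cofaces K hne e
      choose f₁ f₂ a₁ a₂ ha₁ ha₂ A hA hsum using hex
      refine exists_of_functional D (fun q => Quotient.mk (orb φ (K.E (k + 1 + 1))) (f₁ q.out))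
        (fun q => Quotient.mk (orb φ (K.E (k + 1 + 1))) (f₂ q.out)) (fun q => a₁ q.out)
        (fun q => a₂ q.out) (fun q => ha₁ _) (fun q => ha₂ _) ?_ w hkill
      intro b q
      have key : ∀ (f₀ : K.E (k + 1 + 1)),
          D (Finsupp.single (Quotient.mk (orb φ (K.E (k + 1 + 1))) f₀) 1) q =
          a₁ q.out * Finsupp.single (Quotient.mk (orb φ (K.E (k + 1 + 1))) f₀) (1 : ℝ)
            (Quotient.mk (orb φ (K.E (k + 1 + 1))) (f₁ q.out)) +
          a₂ q.out * Finsupp.single (Quotient.mk (orb φ (K.E (k + 1 + 1))) f₀) (1 : ℝ)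
            (Quotient.mk (orb φ (K.E (k + 1 + 1))) (f₂ q.out)) := by
        intro f₀
        rw [← prj_single φ f₀ 1, hD']
        have e1 := prj_coef φ hf3 hf4 (K.d (k + 1)) hde q.out (A q.out) (hA q.out) f₀
        rw [Quotient.out_eq q] at e1
        rw [e1, prj_single]
        exact hsum q.out fun f =>
          Finsupp.single (Quotient.mk (orb φ (K.E (k + 1 + 1))) f₀) (1 : ℝ)
            (Quotient.mk (orb φ (K.E (k + 1 + 1))) f)
      have hlin : (Finsupp.lapply q ∘ₗ D :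
            (Quotient (orb φ (K.E (k + 1 + 1))) →₀ ℝ) →ₗ[ℝ] ℝ) =
          a₁ q.out • Finsupp.lapply (Quotient.mk (orb φ (K.E (k + 1 + 1))) (f₁ q.out)) +
          a₂ q.out • Finsupp.lapply (Quotient.mk (orb φ (K.E (k + 1 + 1))) (f₂ q.out)) := by
        apply Finsupp.lhom_ext'
        intro p
        apply LinearMap.ext_ring
        induction p using Quotient.inductionOn with
        | h f₀ =>
          simp only [LinearMap.comp_apply, Finsupp.lsingle_apply, LinearMap.add_apply,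
            LinearMap.smul_apply, smul_eq_mul, Finsupp.lapply_apply]
          exact key f₀
      have := LinearMap.congr_fun hlin b
      simpa using this
  -- the volume functional
  obtain ⟨r, hr1, hr2⟩ := exists_retraction θ hθinj
  set V : Ch G →ₗ[ℝ] ℝ := fd.nu ∘ₗ push r with hV
  have hVi : InvUnder θ V := by
    intro n l
    simp only [hV, LinearMap.comp_apply, push_sg, List.map_map]
    have := fd.nu_inv n (l.map r)
    rw [List.map_map] at this
    rw [← this]
    congr 2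
    apply List.map_congr_left
    intro x _
    simp [hr1]
  have hVc : ∀ x ∈ Deg (G := G) (k + 3), V (bd x) = 0 := by
    intro x hx
    rw [hV, LinearMap.comp_apply, push_bd]
    exact fd.nu_closed.apply (push_mem_deg _ hx)
  obtain ⟨Λ, hΛ⟩ := descend φ (E := K.E (k + 1)) (V ∘ₗ M.B) (by
    intro n c
    rw [LinearMap.comp_apply, LinearMap.comp_apply, M.Be]
    exact hVi.apply n (M.B c))
  -- it kills boundaries
  have hΛD : ∀ b, Λ (D b) = 0 := by
    intro b
    obtain ⟨c, rfl⟩ := prj_surj φ b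
    rw [hD', hΛ, LinearMap.comp_apply, ← M.Bb']
    exact hVc _ (M.Bd' c)
  have hzd : z ∈ Deg (G := G) (k + 2) := push_mem_deg _ fd.mem
  have h1 : Λ w = 1 := by
    rw [hw, hΛ, LinearMap.comp_apply]
    have e1 : (M.B ∘ₗ M.U - (LinearMap.id : Ch G →ₗ[ℝ] Ch G)) z =
        (bd ∘ₗ M.H' + M.H ∘ₗ bd) z := by
      refine deg_ext _ _ (k + 2) (fun l hl => ?_) hzd
      simp only [LinearMap.sub_apply, LinearMap.id_apply, LinearMap.add_apply,
        LinearMap.comp_apply]
      exact M.Hk l hl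
    simp only [LinearMap.sub_apply, LinearMap.id_apply, LinearMap.add_apply,
      LinearMap.comp_apply] at e1
    have e2 : V (M.B (M.U z)) - V z = V (bd (M.H' z)) + V (M.H (bd z)) := by
      rw [← map_sub, e1, map_add]
    have e3 : M.H' z ∈ Deg (G := G) (k + 3) := map_mem_of_sg M.H' M.Hd' hzd
    rw [hVc _ e3, zero_add] at e2
    have e4 : InvUnder (MonoidHom.id N) (V ∘ₗ M.H ∘ₗ push θ) := by
      intro n l
      simp only [LinearMap.comp_apply, push_sg, MonoidHom.id_apply, List.map_map]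
      have e5 : (l.map θ).map (ι (φ n) * ·) = l.map (θ ∘ fun x => n * x) := by
        rw [List.map_map]
        apply List.map_congr_left
        intro x _
        simp [hθ]
      rw [← e5, M.He]
      exact hVi.apply n _
    have e6 := fd.cyc _ e4
    simp only [LinearMap.comp_apply] at e6
    rw [push_bd] at e6
    rw [e6, sub_eq_zero] at e2
    rw [e2, hz, hV, LinearMap.comp_apply, push_push]
    have h6 : r ∘ θ = fun x => x := by ext x; simp [hr2]
    rw [h6, push_id, fd.nu_z]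
  obtain ⟨b, hb⟩ := hwb
  rw [← hb, hΛD] at h1
  exact zero_ne_one h1

/-! ### subgroups of finite index -/

/-- The dilation by `t` is injective, and its values are products of `t`-th powers. -/
theorem hz_dil (t : ℕ) (ht : t ≠ 0) : ∀ m : ℕ, Function.Injective ((hzFund m).dil t) ∧
    ∀ (G : Type) [Group G] (M : Subgroup G) (_ : ∀ g : G, g ^ t ∈ M) (φ : HZ m →* G) (x : HZ m),
      φ ((hzFund m).dil t x) ∈ M
  | 0 => by
    refine ⟨?_, ?_⟩
    · show Function.Injective (Heis.dil t)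
      intro g h hgh
      have h0 : (t : ℤ) ≠ 0 := by exact_mod_cast ht
      have h1 := congrArg Heis.x hgh
      have h2 := congrArg Heis.y hgh
      have h3 := congrArg Heis.z hgh
      simp only [Heis.dil, MonoidHom.coe_mk, OneHom.coe_mk] at h1 h2 h3
      ext
      · exact mul_left_cancel₀ h0 h1
      · exact mul_left_cancel₀ h0 h2
      · exact mul_left_cancel₀ (pow_ne_zero 2 h0) h3
    · intro G _ M hM φ n
      have h1 : ∀ (y : ℤ) (k : ℕ), (⟨0, y, 0⟩ : Heis) ^ k = ⟨0, k * y, 0⟩ := by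
        intro y k
        induction k with
        | zero => ext <;> simp
        | succ k ih => rw [pow_succ, ih]; ext <;> simp <;> ring
      have h2 : ∀ (x : ℤ) (k : ℕ), (⟨x, 0, 0⟩ : Heis) ^ k = ⟨k * x, 0, 0⟩ := by
        intro x k
        induction k with
        | zero => ext <;> simp
        | succ k ih => rw [pow_succ, ih]; ext <;> simp <;> ring
      have h3 : ∀ (z : ℤ) (k : ℕ), (⟨0, 0, z⟩ : Heis) ^ k = ⟨0, 0, k * z⟩ := by
        intro z k
        induction k with
        | zero => ext <;> simp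
        | succ k ih => rw [pow_succ, ih]; ext <;> simp <;> ring
      have h4 : ∀ n : Heis, Heis.dil t n =
          (⟨0, n.y, 0⟩ : Heis) ^ t * (⟨n.x, 0, 0⟩ : Heis) ^ t * (⟨0, 0, t * n.z⟩ : Heis) ^ t := by
        intro n
        rw [h1, h2, h3]
        ext
        · simp [Heis.dil]
        · simp [Heis.dil]
        · simp [Heis.dil]
          ring
      show φ (Heis.dil t n) ∈ M
      have e : (φ : Heis → G) (Heis.dil t n) =
          (φ (⟨0, n.y, 0⟩ : Heis)) ^ t * (φ (⟨n.x, 0, 0⟩ : Heis)) ^ t *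
            (φ (⟨0, 0, t * n.z⟩ : Heis)) ^ t := by
        rw [h4, ← map_pow, ← map_pow, ← map_pow, ← map_mul, ← map_mul]
        rfl
      rw [e]
      exact M.mul_mem (M.mul_mem (hM _) (hM _)) (hM _)
  | m + 1 => by
    obtain ⟨h1, h2⟩ := hz_dil t ht m
    refine ⟨?_, ?_⟩
    · show Function.Injective (dilP (hzFund m).dil t)
      rintro ⟨x, a⟩ ⟨y, b⟩ hxy
      have e1 : (hzFund m).dil t x = (hzFund m).dil t y := congrArg Prod.fst hxy
      have e2 : a ^ t = b ^ t := congrArg Prod.snd hxy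
      have e3 : a = b := by
        apply Multiplicative.toAdd.injective
        have := congrArg Multiplicative.toAdd e2
        rw [toAdd_pow, toAdd_pow, nsmul_eq_mul, nsmul_eq_mul] at this
        exact mul_left_cancel₀ (by exact_mod_cast ht) this
      rw [h1 e1, e3]
    · intro G _ M hM φ x
      let ψ : HZ m × Multiplicative ℤ →* G := φ
      have e1 : dilP (hzFund m).dil t x = ((hzFund m).dil t x.1, 1) * (1, x.2) ^ t := by
        ext
        · simp [dilP]
        · simp [dilP]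
      show ψ (dilP (hzFund m).dil t x) ∈ M
      rw [e1, map_mul, map_pow]
      exact M.mul_mem (h2 G M hM (ψ.comp (MonoidHom.inl (HZ m) (Multiplicative ℤ))) x.1) (hM _)

/-- An automatic group with a subgroup of finite index that has a thin complex in dimension `m + 3`
does not contain `Heis × ℤ^m`. -/
theorem no_hz_thin (m : ℕ) (hG : IsAutomatic G) (G₁ : Subgroup G) (hi : G₁.index ≠ 0)
    (K : ThinComplex (m + 3) G₁) (Φ : HZ m →* G) (hΦ : Function.Injective Φ) : False := by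
  have hfi : G₁.FiniteIndex := ⟨hi⟩
  set M := G₁.normalCore with hM
  have hMi : M.index ≠ 0 := (Subgroup.finiteIndex_normalCore (H := G₁)).index_ne_zero
  have hpow : ∀ g : G, g ^ M.index ∈ M := fun g => Subgroup.pow_index_mem M g
  obtain ⟨h1, h2⟩ := hz_dil M.index hMi m
  have hmem : ∀ n, (Φ.comp ((hzFund m).dil M.index)) n ∈ G₁ := fun n =>
    G₁.normalCore_le (h2 G M hpow Φ n)
  set φ₁ : HZ m →* G₁ := (Φ.comp ((hzFund m).dil M.index)).codRestrict G₁ hmem with hφ₁
  have hinj : Function.Injective φ₁ := by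
    intro g h hgh
    have h3 : Φ ((hzFund m).dil M.index g) = Φ ((hzFund m).dil M.index h) :=
      congrArg Subtype.val hgh
    exact h1 (hΦ h3)
  refine no_fund_sub (k := m + 2) (hzFund m) hG G₁.subtype G₁.subtype_injective ?_ K φ₁ hinj
  rw [Subgroup.range_subtype]
  exact hfi

end Pool.Agent.H9DimN
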